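import Pool.Agent.Y133.Half.DDefs
import Pool.Agent.Y133.Half.PwDefs
import Pool.Agent.H914R2.KDefs

/-!
# The rank distance of the lowering operator from the algebraic operators: definitions
-/

open CategoryTheory AlgebraicGeometry

universe u v

namespace Pool.Agent.Q55.Lr

section Lin

variable {K V : Type*} [Field K] [AddCommGroup V] [Module K V]

/-- The operator `f` is the lowering operator of the graded space `gr` with the operator `L`: it
lowers the degree by two (and it is zero on the degrees `0` and `1`), and the commutator
`L f - f L` is the multiplication by `i - n` on the degree `i`. -/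
def IsLowering (gr : ℕ → Submodule K V) (n : ℕ) (L f : Module.End K V) : Prop :=
  (∀ i, ∀ x ∈ gr (i + 2), f x ∈ gr i) ∧ (∀ i < 2, ∀ x ∈ gr i, f x = 0) ∧
    ∀ i, ∀ x ∈ gr i, L (f x) - f (L x) = ((i : K) - n) • x

/-- The smallest rank of a difference `f - u` of an operator `f` with the property `P` and an
operator `u` with the property `Q`. -/
noncomputable def rankDist (P Q : Module.End K V → Prop) : ℕ :=
  sInf {r | ∃ f u, P f ∧ Q u ∧ Module.finrank K (LinearMap.range (f - u)) = r}

end Lin

open Pool.Agent.H914 Pool.Agent.H914.VarClass Pool.Agent.H914.VarClass.Obj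
  Pool.Agent.H914.WeilCohomology Pool.Agent.Y133.Half

variable {k : Type u} [Field k] {𝒱 : VarClass k} {ops : CycleOps 𝒱}

/-- The operator `u` on the cohomology of `X` is given by a linear combination, with coefficients in
the coefficient field of the cohomology, of classes of algebraic cycles (of all codimensions) on
`X × X`. -/
def IsAlgOp (W : WeilCohomology.{u, v} ops) (X : 𝒱.Obj) (u : Module.End W.K (W.H X)) : Prop :=
  ∃ c ∈ Submodule.span W.K (algSet W (X.prod X)), W.corr c = u

/-- The rank distance of the lowering operator `f` of the divisor `D` from the algebraic operators: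
the smallest rank of an operator `f - u` with an algebraic operator `u`. -/
noncomputable def lambdaDist (W : WeilCohomology.{u, v} ops) (X : 𝒱.Obj) (D : X.Cycles) : ℕ :=
  rankDist (IsLowering (W.gr X) X.dim (LinearMap.mulLeft W.K (W.cl X D))) (IsAlgOp W X)

end Pool.Agent.Q55.Lr
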