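import Pool.Agent.Q55.Lr.Slice2

/-!
# Operators on products which are approximated by algebraic operators, III
-/

open CategoryTheory AlgebraicGeometry

set_option linter.unusedSectionVars false

universe u v

namespace Pool.Agent.Q55.Lr

open Module
open Pool.Agent.H914 Pool.Agent.H914.VarClass Pool.Agent.H914.VarClass.Obj
  Pool.Agent.H914.WeilCohomology Pool.Agent.Y133.Half

variable {k : Type u} [Field k] {𝒱 : VarClass k} {ops : CycleOps 𝒱}
  {W : WeilCohomology.{u, v} ops} {X Y : 𝒱.Obj} {S : Sys W}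

/-- An operator of small rank kills a slice. -/
lemma exists_slice {M N : Submodule W.K (W.H Y)} {E : Module.End W.K (W.H (X.prod Y))}
    (p : M →ₗ[W.K] Module.Dual W.K N)
    (h : finrank W.K (W.H X) * finrank W.K (LinearMap.range E) <
      finrank W.K (LinearMap.range p)) : ∃ w : M, p w ≠ 0 ∧ ∀ x, E (xp W x (w : W.H Y)) = 0 := by
  let Φ : M →ₗ[W.K] W.H X →ₗ[W.K] LinearMap.range E :=
    LinearMap.mk₂ W.K (fun w x => E.rangeRestrict (xp W x (w : W.H Y)))
      (fun w w' x => by rw [Submodule.coe_add, xp_add_right, map_add])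
      (fun r w x => by rw [Submodule.coe_smul, xp_smul_right, map_smul])
      (fun w x x' => by rw [xp_add_left, map_add])
      (fun r w x => by rw [xp_smul_left, map_smul])
  have h5 : finrank W.K (LinearMap.range Φ) ≤
      finrank W.K (W.H X) * finrank W.K (LinearMap.range E) := by
    rw [← Module.finrank_linearMap (R := W.K) (S := W.K)]
    exact Submodule.finrank_le _
  have h6 : finrank W.K (LinearMap.range Φ) < finrank W.K (LinearMap.range p) :=
    lt_of_le_of_lt h5 h
  have h1 : ¬ LinearMap.ker Φ ≤ LinearMap.ker p := by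
    intro hle
    have h2 := LinearMap.finrank_range_add_finrank_ker (K := W.K) (V := M)
      (V₂ := W.H X →ₗ[W.K] LinearMap.range E) Φ
    have h3 := LinearMap.finrank_range_add_finrank_ker p
    have h4 := Submodule.finrank_mono hle
    omega
  obtain ⟨w, hw, hw'⟩ := SetLike.not_le_iff_exists.1 h1
  refine ⟨w, hw', fun x => ?_⟩
  exact congrArg Subtype.val (LinearMap.congr_fun (LinearMap.mem_ker.1 hw) x)

/-- An operator of small rank kills a slice, for the second factor. -/
lemma exists_slice_right {M N : Submodule W.K (W.H Y)} {E : Module.End W.K (W.H (Y.prod X))}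
    (p : M →ₗ[W.K] Module.Dual W.K N)
    (h : finrank W.K (W.H X) * finrank W.K (LinearMap.range E) <
      finrank W.K (LinearMap.range p)) : ∃ w : M, p w ≠ 0 ∧ ∀ x, E (xp W (w : W.H Y) x) = 0 := by
  let Φ : M →ₗ[W.K] W.H X →ₗ[W.K] LinearMap.range E :=
    LinearMap.mk₂ W.K (fun w x => E.rangeRestrict (xp W (w : W.H Y) x))
      (fun w w' x => by rw [Submodule.coe_add, xp_add_left, map_add])
      (fun r w x => by rw [Submodule.coe_smul, xp_smul_left, map_smul])
      (fun w x x' => by rw [xp_add_right, map_add])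
      (fun r w x => by rw [xp_smul_right, map_smul])
  have h5 : finrank W.K (LinearMap.range Φ) ≤
      finrank W.K (W.H X) * finrank W.K (LinearMap.range E) := by
    rw [← Module.finrank_linearMap (R := W.K) (S := W.K)]
    exact Submodule.finrank_le _
  have h6 : finrank W.K (LinearMap.range Φ) < finrank W.K (LinearMap.range p) :=
    lt_of_le_of_lt h5 h
  have h1 : ¬ LinearMap.ker Φ ≤ LinearMap.ker p := by
    intro hle
    have h2 := LinearMap.finrank_range_add_finrank_ker (K := W.K) (V := M)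
      (V₂ := W.H X →ₗ[W.K] LinearMap.range E) Φ
    have h3 := LinearMap.finrank_range_add_finrank_ker p
    have h4 := Submodule.finrank_mono hle
    omega
  obtain ⟨w, hw, hw'⟩ := SetLike.not_le_iff_exists.1 h1
  refine ⟨w, hw', fun x => ?_⟩
  exact congrArg Subtype.val (LinearMap.congr_fun (LinearMap.mem_ker.1 hw) x)

/-- **The slices**, in general, for the first factor. -/
theorem slice_gen {M N : Submodule W.K (W.H Y)} (hM : M ≤ S.C Y) (hN : N ≤ S.C Y)
    {T : Module.End W.K (W.H (X.prod Y))} {A : Module.End W.K (W.H X)}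
    (hT : ∀ w ∈ M, ∀ x, T (xp W x w) = xp W (A x) w)
    {u : Module.End W.K (W.H (X.prod Y))} (hu : u ∈ S.Op (X.prod Y) (X.prod Y))
    (p : M →ₗ[W.K] Module.Dual W.K N) (hp : ∀ w v, p w v = W.tr Y ((w : W.H Y) * v))
    (h : finrank W.K (W.H X) * finrank W.K (LinearMap.range (T - u)) <
      finrank W.K (LinearMap.range p)) : A ∈ S.Op X X := by
  obtain ⟨w, hw', hw⟩ := exists_slice p h
  obtain ⟨v, hv⟩ : ∃ v : N, W.tr Y ((w : W.H Y) * v) ≠ 0 := by
    by_contra hcon
    push Not at hcon
    apply hw'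
    apply LinearMap.ext
    intro v
    rw [hp, hcon v]
    rfl
  have hwe := S.even (hM w.2)
  have hve := S.even (hN v.2)
  have h3 : ∀ x, u (xp W x (w : W.H Y)) = xp W (A x) w := by
    intro x
    have h4 := hw x
    rw [LinearMap.sub_apply, sub_eq_zero, hT _ w.2] at h4
    exact h4.symm
  have h4 : ev W X (v : W.H Y) ∘ₗ u ∘ₗ jw W X (w : W.H Y) =
      W.tr Y ((w : W.H Y) * v) • A := by
    apply LinearMap.ext
    intro x
    rw [LinearMap.comp_apply, LinearMap.comp_apply, jw_apply hwe, h3, ev_xp hve hwe]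
    rfl
  have h5 : ev W X (v : W.H Y) ∘ₗ u ∘ₗ jw W X (w : W.H Y) ∈ S.Op X X :=
    Sys.Op.comp (ev_op (hN v.2)) (Sys.Op.comp hu (jw_op (hM w.2)))
  rw [h4] at h5
  have h7 := Submodule.smul_mem _ (W.tr Y ((w : W.H Y) * v))⁻¹ h5
  rwa [smul_smul, inv_mul_cancel₀ hv, one_smul] at h7

/-- **The slices**, in general, for the second factor. -/
theorem slice_gen_right {M N : Submodule W.K (W.H Y)} (hM : M ≤ S.C Y) (hN : N ≤ S.C Y)
    {T : Module.End W.K (W.H (Y.prod X))} {A : Module.End W.K (W.H X)}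
    (hT : ∀ w ∈ M, ∀ x, T (xp W w x) = xp W w (A x))
    {u : Module.End W.K (W.H (Y.prod X))} (hu : u ∈ S.Op (Y.prod X) (Y.prod X))
    (p : M →ₗ[W.K] Module.Dual W.K N) (hp : ∀ w v, p w v = W.tr Y ((w : W.H Y) * v))
    (h : finrank W.K (W.H X) * finrank W.K (LinearMap.range (T - u)) <
      finrank W.K (LinearMap.range p)) : A ∈ S.Op X X := by
  obtain ⟨w, hw', hw⟩ := exists_slice_right p h
  obtain ⟨v, hv⟩ : ∃ v : N, W.tr Y ((w : W.H Y) * v) ≠ 0 := by
    by_contra hcon
    push Not at hcon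
    apply hw'
    apply LinearMap.ext
    intro v
    rw [hp, hcon v]
    rfl
  rw [PH.even_comm (S.even (hM w.2))] at hv
  have h3 : ∀ x, u (xp W (w : W.H Y) x) = xp W (w : W.H Y) (A x) := by
    intro x
    have h4 := hw x
    rw [LinearMap.sub_apply, sub_eq_zero, hT _ w.2] at h4
    exact h4.symm
  have h4 : el W X (v : W.H Y) ∘ₗ u ∘ₗ jl W X (w : W.H Y) =
      W.tr Y ((v : W.H Y) * w) • A := by
    apply LinearMap.ext
    intro x
    rw [LinearMap.comp_apply, LinearMap.comp_apply, jl_apply, h3, el_xp]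
    rfl
  have h5 : el W X (v : W.H Y) ∘ₗ u ∘ₗ jl W X (w : W.H Y) ∈ S.Op X X :=
    Sys.Op.comp (el_op (hN v.2)) (Sys.Op.comp hu (jl_op (hM w.2)))
  rw [h4] at h5
  have h7 := Submodule.smul_mem _ (W.tr Y ((v : W.H Y) * w))⁻¹ h5
  rwa [smul_smul, inv_mul_cancel₀ hv, one_smul] at h7

end Pool.Agent.Q55.Lr
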