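import Pool.Agent.Q55.Lr.Defs

/-!
# The rank distance of the Kunneth projectors from the algebraic operators: definitions
-/

open CategoryTheory AlgebraicGeometry

universe u v

namespace Pool.Agent.Q55.Lr

open Pool.Agent.H914 Pool.Agent.H914.VarClass Pool.Agent.H914.VarClass.Obj
  Pool.Agent.H914.WeilCohomology Pool.Agent.Y133.Half

variable {k : Type u} [Field k] {𝒱 : VarClass k} {ops : CycleOps 𝒱}

/-- The Kunneth component `π_i` is algebraic: the projector onto `H^i(X)` is given by a linear
combination, with coefficients in the coefficient field of the cohomology, of classes of cycles of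
codimension `dim X` on `X × X`. -/
def ComponentAlgebraic (W : WeilCohomology.{u, v} ops) (X : 𝒱.Obj) (i : ℕ) : Prop :=
  ∃ c ∈ spanCycles W (X.prod X) X.dim, IsProjector (W.gr X) i (W.corr c)

/-- The rank distance of the projector `π_i` of `X` from the algebraic operators: the smallest rank
of an operator `π_i - u` with an operator `u` given by a combination of cycle classes of any
codimensions. -/
noncomputable def projDist (W : WeilCohomology.{u, v} ops) (X : 𝒱.Obj) (i : ℕ) : ℕ :=
  rankDist (IsProjector (W.gr X) i) (IsAlgOp W X)

/-- The largest of the distances of the Kunneth projectors of `X` from the algebraic operators. -/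
noncomputable def kunnethDist (W : WeilCohomology.{u, v} ops) (X : 𝒱.Obj) : ℕ :=
  (Finset.range (2 * X.dim + 1)).sup (projDist W X)

end Pool.Agent.Q55.Lr
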