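import Pool.Agent.Q55.Lr.Main

/-!
# The rank distance of the lowering operator on powers
-/

open CategoryTheory AlgebraicGeometry Filter Topology

set_option linter.unusedSectionVars false

universe u v

namespace Pool.Agent.Q55.Lr

open Module
open Pool.Agent.H914 Pool.Agent.H914.VarClass Pool.Agent.H914.VarClass.Obj
  Pool.Agent.H914.WeilCohomology Pool.Agent.Y133.Half Pool.Agent.H447 Pool.Agent.Q55.Rate
open Pool.Agent.W550.B (IsLefschetzDivisor)
open Pool.Agent.Q55.Od (pd pd_cyc)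
open Pool.Agent.Q55.Oc (exists_f isLefschetzDivisor_prod lefschetzB_prod)

variable {k : Type u} [Field k] {𝒱 : VarClass k} {ops : CycleOps 𝒱}
  {W : WeilCohomology.{u, v} ops} {X Y : 𝒱.Obj} {D : X.Cycles} {E : Y.Cycles}

lemma isLef_pw (hX : IsLefschetzDivisor W X D) : ∀ n,
    IsLefschetzDivisor W (pw X n) (pwDiv ops D n)
  | 0 => hX
  | n + 1 => isLefschetzDivisor_prod (isLef_pw hX n) hX

/-- If the conjecture B holds for `X`, it holds for the powers. -/
lemma lefB_pw (hX : IsLefschetzDivisor W X D) (hB : LefschetzB W X D) : ∀ n,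
    LefschetzB W (pw X n) (pwDiv ops D n)
  | 0 => hB
  | n + 1 => lefschetzB_prod (isLef_pw hX n) hX (lefB_pw hX hB n) hB

lemma pw_zero (hX : IsLefschetzDivisor W X D) (hB : LefschetzB W X D) (n : ℕ) :
    lambdaDist W (pw X n) (pwDiv ops D n) = 0 :=
  (dist_eq_zero (isLef_pw hX n)).2 (lefB_pw hX hB n)

lemma pw_law (hX : IsLefschetzDivisor W X D) (hB : ¬ LefschetzB W X D) (n : ℕ) :
    cycRank ops (pw X n) ≤ totalBetti W X * lambdaDist W (pw X (n + 1)) (pwDiv ops D (n + 1)) :=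
  dist_right hX (isLef_pw hX n) hB

lemma dist_le_betti (hX : IsLefschetzDivisor W X D) : lambdaDist W X D ≤ totalBetti W X := by
  obtain ⟨f, t, -⟩ := exists_f hX.1 hX.2
  exact (dist_le hX.1 t (Submodule.zero_mem _)).trans (Submodule.finrank_le _)

lemma betti_pw (X : 𝒱.Obj) (n : ℕ) : totalBetti W (pw X n) = totalBetti W X ^ (n + 1) :=
  Pool.Agent.Y133.Half.finrank_pw X n

lemma nontrivial_of_not (hX : IsLefschetzDivisor W X D) (hB : ¬ LefschetzB W X D) :
    Nontrivial (W.H X) := by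
  by_contra h
  rw [not_nontrivial_iff_subsingleton] at h
  apply hB
  rw [← dist_eq_zero hX]
  have h1 := dist_le_betti hX
  rw [totalBetti, finrank_zero_of_subsingleton] at h1
  omega

lemma cyc_poly (hs : SignAlgebraic W X) (n : ℕ) : totalBetti W X ^ (2 * (n + 1)) ≤
    cycRank ops (pw X (2 * n + 1)) * (n + 2) ^ (totalBetti W X ^ 2) := by
  rw [← numDim_eq_cycRank W]
  change finrank W.K (W.H X) ^ (2 * (n + 1)) ≤
    (algSys W).a (pw X (2 * n + 1)) * (n + 2) ^ (finrank W.K (W.H X) ^ 2)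
  rw [← al_eq]
  exact Pool.Agent.Q55.Hs.growth_num (algSys W) (par_eq hs) n

lemma pw_mono [Nontrivial (W.H X)] (hX : IsLefschetzDivisor W X D) (n : ℕ) :
    lambdaDist W (pw X n) (pwDiv ops D n) ≤ lambdaDist W (pw X (n + 1)) (pwDiv ops D (n + 1)) :=
  dist_mono (isLef_pw hX n) hX

/-- The polynomial bound. -/
theorem pw_poly (hX : IsLefschetzDivisor W X D) (hB : ¬ LefschetzB W X D)
    (hs : SignAlgebraic W X) (m : ℕ) :
    totalBetti W X ^ m ≤ totalBetti W X ^ 2 * (m + 1) ^ (totalBetti W X ^ 2) *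
      lambdaDist W (pw X m) (pwDiv ops D m) := by
  have hnt := nontrivial_of_not hX hB
  have hb : 1 ≤ totalBetti W X := Module.finrank_pos
  have h0 : 1 ≤ lambdaDist W X D := by
    rw [Nat.one_le_iff_ne_zero]
    exact fun h => hB ((dist_eq_zero hX).1 h)
  set b := totalBetti W X with hbdef
  have key : ∀ n, b ^ (2 * (n + 1)) ≤ b * lambdaDist W (pw X (2 * n + 2))
      (pwDiv ops D (2 * n + 2)) * (n + 2) ^ (b ^ 2) := fun n =>
    (cyc_poly hs n).trans (Nat.mul_le_mul_right _ (pw_law hX hB (2 * n + 1)))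
  rcases Nat.even_or_odd' m with ⟨n, rfl | rfl⟩
  · rcases n with _ | n
    · have h1 : 1 ≤ b ^ 2 := Nat.one_le_pow _ _ hb
      have h2 : 1 ≤ lambdaDist W (pw X (2 * 0)) (pwDiv ops D (2 * 0)) := h0
      simp only [mul_zero, pow_zero, zero_add, one_pow, mul_one]
      exact Nat.mul_pos h1 h2
    · have h1 := key n
      have h2 : b ≤ b ^ 2 := Nat.le_self_pow (by norm_num) b
      have h3 : (n + 2) ^ (b ^ 2) ≤ (2 * (n + 1) + 1) ^ (b ^ 2) :=
        Nat.pow_le_pow_left (by omega) _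
      calc b ^ (2 * (n + 1)) ≤ b * lambdaDist W (pw X (2 * n + 2))
              (pwDiv ops D (2 * n + 2)) * (n + 2) ^ (b ^ 2) := h1
        _ = b * (n + 2) ^ (b ^ 2) * lambdaDist W (pw X (2 * n + 2))
              (pwDiv ops D (2 * n + 2)) := by ring
        _ ≤ b ^ 2 * (2 * (n + 1) + 1) ^ (b ^ 2) * lambdaDist W (pw X (2 * n + 2))
              (pwDiv ops D (2 * n + 2)) :=
            Nat.mul_le_mul_right _ (Nat.mul_le_mul h2 h3)
  · rcases n with _ | n
    · have h1 : 1 ≤ lambdaDist W (pw X (2 * 0 + 1)) (pwDiv ops D (2 * 0 + 1)) :=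
        h0.trans (pw_mono hX 0)
      have h2 : b ≤ b ^ 2 := Nat.le_self_pow (by norm_num) b
      have h3 : 1 ≤ (2 * 0 + 1 + 1) ^ (b ^ 2) := Nat.one_le_pow _ _ (by norm_num)
      calc b ^ (2 * 0 + 1) = b * 1 * 1 := by ring
        _ ≤ _ := Nat.mul_le_mul (Nat.mul_le_mul h2 h3) h1
    · have h1 := key n
      have h3 : (n + 2) ^ (b ^ 2) ≤ (2 * (n + 1) + 1 + 1) ^ (b ^ 2) :=
        Nat.pow_le_pow_left (by omega) _
      have h4 := pw_mono (ops := ops) hX (2 * n + 2)
      calc b ^ (2 * (n + 1) + 1) = b * b ^ (2 * (n + 1)) := by ring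
        _ ≤ b * (b * lambdaDist W (pw X (2 * n + 2))
              (pwDiv ops D (2 * n + 2)) * (n + 2) ^ (b ^ 2)) := Nat.mul_le_mul_left _ h1
        _ = b ^ 2 * (n + 2) ^ (b ^ 2) * lambdaDist W (pw X (2 * n + 2))
              (pwDiv ops D (2 * n + 2)) := by ring
        _ ≤ b ^ 2 * (2 * (n + 1) + 1 + 1) ^ (b ^ 2) * lambdaDist W (pw X (2 * n + 2 + 1))
              (pwDiv ops D (2 * n + 2 + 1)) :=
            Nat.mul_le_mul (Nat.mul_le_mul_left _ h3) h4

lemma le_numRank [Nontrivial (W.H X)] (hX : IsLefschetzDivisor W X D) {j : ℕ} (hj : j ≤ X.dim) :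
    1 ≤ Pool.Agent.W534.numRank ops X j := by
  rw [Pool.Agent.W534.numRank_eq (W := W) hj]
  have hm : ∀ i, W.cl X D ^ i ∈ spanCycles W X (i : ℕ) := by
    intro i
    rw [← Pool.Agent.Y163.cl_divPow_fund]
    exact mem_span_cl (Pool.Agent.Y163.divPow_fund_mem hX.1 i)
  by_contra h
  have h0 : finrank W.K (LinearMap.range (Pool.Agent.W534.pair W X j (X.dim - j : ℕ))) = 0 := by
    change Pool.Agent.W534.kRank W X j (X.dim - j) = 0
    omega
  rw [Submodule.finrank_eq_zero, LinearMap.range_eq_bot] at h0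
  apply tr_top_ne hX
  have h2 := congrArg (fun F => F ⟨_, hm j⟩ ⟨_, hm (X.dim - j)⟩) h0
  simp only [Pool.Agent.W534.pair_apply, LinearMap.zero_apply] at h2
  rwa [← pow_add, Nat.add_sub_cancel' hj] at h2

lemma le_cycRank [Nontrivial (W.H X)] (hX : IsLefschetzDivisor W X D) :
    X.dim + 1 ≤ cycRank ops X := by
  rw [cycRank]
  calc X.dim + 1 = ∑ j ∈ Finset.range (X.dim + 1), 1 := by simp
    _ ≤ _ := Finset.sum_le_sum fun j hj =>
      le_numRank hX (by have := Finset.mem_range.1 hj; omega)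

/-- The powers of the divisors. -/
lemma pow_le_cycRank [Nontrivial (W.H X)] (hX : IsLefschetzDivisor W X D) : ∀ n,
    (X.dim + 1) ^ (n + 1) ≤ cycRank ops (pw X n)
  | 0 => by
    rw [zero_add, pow_one]
    exact le_cycRank hX
  | n + 1 => by
    have h1 := pow_le_cycRank hX n
    have h2 := le_cycRank hX
    have h3 := a_pw_sup (algSys W) X n 0
    rw [numDim_eq_cycRank, numDim_eq_cycRank, numDim_eq_cycRank] at h3
    rw [pow_succ]
    exact (Nat.mul_le_mul h1 h2).trans h3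

/-- The explicit exponential lower bound. -/
theorem pw_exp (hX : IsLefschetzDivisor W X D) (hB : ¬ LefschetzB W X D) (n : ℕ) :
    (X.dim + 1) ^ (n + 1) ≤
      totalBetti W X * lambdaDist W (pw X (n + 1)) (pwDiv ops D (n + 1)) := by
  have hnt := nontrivial_of_not hX hB
  exact (pow_le_cycRank hX n).trans (pw_law hX hB n)

/-- The rate. -/
theorem pw_rate (hX : IsLefschetzDivisor W X D) (hB : ¬ LefschetzB W X D)
    (hs : SignAlgebraic W X) :
    Tendsto (fun m : ℕ => (lambdaDist W (pw X m) (pwDiv ops D m) : ℝ) ^ ((1 : ℝ) / (m + 1))) atTop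
      (𝓝 (totalBetti W X)) := by
  have hnt := nontrivial_of_not hX hB
  refine tendsto_root (b := totalBetti W X) (C := totalBetti W X ^ 2)
    (N := totalBetti W X ^ 2) Module.finrank_pos (fun m => ?_) (pw_poly hX hB hs)
  rw [← betti_pw]
  exact dist_le_betti (isLef_pw hX m)

end Pool.Agent.Q55.Lr
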