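import Pool.Agent.Q55.Lr.Gen
import Pool.Agent.Q55.Lr.KunDefs
import Pool.Agent.Q55.Lr.Pow
import Pool.Agent.Q55.Hs.Nest

/-!
# The rank distance of the Kunneth projectors on products
-/

open CategoryTheory AlgebraicGeometry Filter Topology

set_option linter.unusedSectionVars false

universe u v

namespace Pool.Agent.Q55.Lr

open Module
open Pool.Agent.H914 Pool.Agent.H914.VarClass Pool.Agent.H914.VarClass.Obj
  Pool.Agent.H914.WeilCohomology Pool.Agent.Y133.Half Pool.Agent.Q55.Rate Pool.Agent.W534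
open Pool.Agent.Q55.Hs (proj_prod)

variable {k : Type u} [Field k] {𝒱 : VarClass k} {ops : CycleOps 𝒱}
  {W : WeilCohomology.{u, v} ops} {X Y : 𝒱.Obj}

lemma isProjector_iff {i : ℕ} {f : Module.End W.K (W.H X)} :
    IsProjector (W.gr X) i f ↔ f = proj (W.isInternal X) i := by
  constructor
  · intro h
    apply gr_ext (W.isInternal X)
    intro j a ha
    rw [h j a ha]
    by_cases hj : j = i
    · subst hj
      rw [if_pos rfl, proj_same _ ha]
    · rw [if_neg hj, proj_ne _ ha hj]
  · rintro rfl j a ha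
    by_cases hj : j = i
    · subst hj
      rw [if_pos rfl, proj_same _ ha]
    · rw [if_neg hj, proj_ne _ ha hj]

lemma mem_isAlgOp {u : Module.End W.K (W.H X)} : IsAlgOp W X u ↔ u ∈ (algSys W).Op X X :=
  mem_algOps

lemma component_iff {i : ℕ} :
    ComponentAlgebraic W X i ↔ proj (W.isInternal X) i ∈ (algSys W).Op X X := by
  constructor
  · rintro ⟨c, hc, h⟩
    rw [isProjector_iff] at h
    rw [← h]
    exact Sys.Op.corr (Pool.Agent.Q55.Gp.span_le_alg hc)
  · intro h
    have h0 : Pool.Agent.Q55.Gb.DegOp W X 0 (proj (W.isInternal X) i) := by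
      refine ⟨h, ?_⟩
      rw [Nat.cast_zero, mul_zero, neg_zero]
      exact isHom_scal (W.isInternal X) _
    obtain ⟨z, hz, hzf⟩ := Pool.Agent.Q55.Gb.exists_of_degOp (c := X.dim) (by omega) h0
    exact ⟨z, hz, by rw [hzf, isProjector_iff]⟩

lemma pdist_le {i : ℕ} {u : Module.End W.K (W.H X)} (hu : u ∈ (algSys W).Op X X) :
    projDist W X i ≤ finrank W.K (LinearMap.range (proj (W.isInternal X) i - u)) :=
  Nat.sInf_le ⟨_, u, isProjector_iff.2 rfl, mem_isAlgOp.2 hu, rfl⟩

lemma pdist_spec (i : ℕ) : ∃ u ∈ (algSys W).Op X X,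
    finrank W.K (LinearMap.range (proj (W.isInternal X) i - u)) = projDist W X i := by
  have h1 : projDist W X i ∈ {r | ∃ f u, IsProjector (W.gr X) i f ∧ IsAlgOp W X u ∧
      Module.finrank W.K (LinearMap.range (f - u)) = r} :=
    Nat.sInf_mem ⟨_, _, 0, isProjector_iff.2 rfl, mem_isAlgOp.2 (Submodule.zero_mem _), rfl⟩
  obtain ⟨f', u, hf', hu, h⟩ := h1
  rw [isProjector_iff] at hf'
  subst hf'
  exact ⟨u, mem_isAlgOp.1 hu, h⟩

lemma pdist_eq_zero {i : ℕ} : projDist W X i = 0 ↔ ComponentAlgebraic W X i := by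
  rw [component_iff]
  constructor
  · intro h
    obtain ⟨u, hu, h1⟩ := pdist_spec (W := W) (X := X) i
    rw [h] at h1
    have h2 : proj (W.isInternal X) i - u = 0 := by
      rw [Submodule.finrank_eq_zero] at h1
      exact LinearMap.range_eq_bot.1 h1
    rw [sub_eq_zero] at h2
    exact h2 ▸ hu
  · intro h
    have h1 := pdist_le (i := i) h
    rw [sub_self, LinearMap.range_zero, finrank_bot] at h1
    omega

/-- The projector on a product, first factor. -/
lemma proj_xp {i j : ℕ} {w : W.H Y} (hw : w ∈ W.gr Y (2 * j)) (x : W.H X) :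
    proj (W.isInternal (X.prod Y)) (i + 2 * j) (xp W x w) =
      xp W (proj (W.isInternal X) i x) w := by
  rw [proj_prod, LinearMap.sum_apply, Finset.sum_eq_single i]
  · rw [extOp_xp, Nat.add_sub_cancel_left, proj_same _ hw]
  · intro l hl hli
    rw [Finset.mem_range] at hl
    rw [extOp_xp, proj_ne _ hw (by omega), xp_def, map_zero, mul_zero]
  · intro h
    exact absurd (Finset.mem_range.2 (by omega)) h

lemma proj_xp_right {i j : ℕ} {w : W.H Y} (hw : w ∈ W.gr Y (2 * j)) (x : W.H X) :
    proj (W.isInternal (Y.prod X)) (i + 2 * j) (xp W w x) =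
      xp W w (proj (W.isInternal X) i x) := by
  rw [proj_prod, LinearMap.sum_apply, Finset.sum_eq_single (2 * j)]
  · rw [extOp_xp, Nat.add_sub_cancel, proj_same _ hw]
  · intro l _ hli
    rw [extOp_xp, proj_ne _ hw (Ne.symm hli), xp_def, map_zero, zero_mul]
  · intro h
    exact absurd (Finset.mem_range.2 (by omega)) h

lemma span_le_C (j : ℕ) : spanCycles W Y (j : ℕ) ≤ (algSys W).C Y := fun _ h =>
  Pool.Agent.Q55.Gp.span_le_alg h

/-- **The rank distance of one projector of a product.** -/
theorem pdist_left {i j : ℕ} (hj : j ≤ Y.dim) (hC : ¬ ComponentAlgebraic W X i) :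
    numRank ops Y j ≤ totalBetti W X * projDist W (X.prod Y) (i + 2 * j) := by
  obtain ⟨u, hu, h1⟩ := pdist_spec (W := W) (X := X.prod Y) (i + 2 * j)
  by_contra hlt
  push Not at hlt
  rw [← h1, numRank_eq (W := W) hj] at hlt
  exact hC (component_iff.2 (slice_gen (span_le_C j) (span_le_C (Y.dim - j))
    (fun w hw x => proj_xp (Pool.Agent.H914.span_gr hw) x) hu (pair W Y j (Y.dim - j : ℕ))
    (fun w v => pair_apply _ _ w v) hlt))

/-- The same for the second factor. -/
theorem pdist_right {i j : ℕ} (hj : j ≤ Y.dim) (hC : ¬ ComponentAlgebraic W X i) :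
    numRank ops Y j ≤ totalBetti W X * projDist W (Y.prod X) (i + 2 * j) := by
  obtain ⟨u, hu, h1⟩ := pdist_spec (W := W) (X := Y.prod X) (i + 2 * j)
  by_contra hlt
  push Not at hlt
  rw [← h1, numRank_eq (W := W) hj] at hlt
  exact hC (component_iff.2 (slice_gen_right (span_le_C j) (span_le_C (Y.dim - j))
    (fun w hw x => proj_xp_right (Pool.Agent.H914.span_gr hw) x) hu (pair W Y j (Y.dim - j : ℕ))
    (fun w v => pair_apply _ _ w v) hlt))

/-- Components in degrees above the dimension are algebraic. -/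
lemma component_of_gt {i : ℕ} (hi : 2 * X.dim < i) : ComponentAlgebraic W X i := by
  rw [component_iff]
  have h1 : proj (W.isInternal X) i = 0 := by
    apply LinearMap.ext
    intro x
    have h2 := proj_mem (W.isInternal X) i x
    rw [W.gr_eq_bot X i hi, Submodule.mem_bot] at h2
    rw [h2, LinearMap.zero_apply]
  rw [h1]
  exact Submodule.zero_mem _

lemma pdist_le_kdist (i : ℕ) : projDist W X i ≤ kunnethDist W X := by
  by_cases hi : 2 * X.dim < i
  · rw [pdist_eq_zero.2 (component_of_gt hi)]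
    exact Nat.zero_le _
  · exact Finset.le_sup (f := projDist W X) (Finset.mem_range.2 (by omega))

lemma kdist_eq_zero : kunnethDist W X = 0 ↔ ∀ i, ComponentAlgebraic W X i := by
  constructor
  · intro h i
    rw [← pdist_eq_zero]
    have := pdist_le_kdist (W := W) (X := X) i
    omega
  · intro h
    apply Nat.eq_zero_of_le_zero
    apply Finset.sup_le
    intro i _
    exact (pdist_eq_zero.2 (h i)).le

/-- Numerical ranks of all codimensions. -/
theorem kdist_left (hC : ¬ ∀ i, ComponentAlgebraic W X i) (Y : 𝒱.Obj) :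
    cycRank ops Y ≤ (Y.dim + 1) * (totalBetti W X * kunnethDist W (X.prod Y)) := by
  push Not at hC
  obtain ⟨i, hi⟩ := hC
  rw [cycRank]
  calc ∑ j ∈ Finset.range (Y.dim + 1), numRank ops Y j
      ≤ ∑ j ∈ Finset.range (Y.dim + 1), totalBetti W X * kunnethDist W (X.prod Y) :=
        Finset.sum_le_sum fun j hj => (pdist_left (by
          have := Finset.mem_range.1 hj; omega) hi).trans
            (Nat.mul_le_mul_left _ (pdist_le_kdist _))
    _ = _ := by rw [Finset.sum_const, Finset.card_range, smul_eq_mul]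

theorem kdist_right (hC : ¬ ∀ i, ComponentAlgebraic W X i) (Y : 𝒱.Obj) :
    cycRank ops Y ≤ (Y.dim + 1) * (totalBetti W X * kunnethDist W (Y.prod X)) := by
  push Not at hC
  obtain ⟨i, hi⟩ := hC
  rw [cycRank]
  calc ∑ j ∈ Finset.range (Y.dim + 1), numRank ops Y j
      ≤ ∑ j ∈ Finset.range (Y.dim + 1), totalBetti W X * kunnethDist W (Y.prod X) :=
        Finset.sum_le_sum fun j hj => (pdist_right (by
          have := Finset.mem_range.1 hj; omega) hi).trans
            (Nat.mul_le_mul_left _ (pdist_le_kdist _))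
    _ = _ := by rw [Finset.sum_const, Finset.card_range, smul_eq_mul]

/-- The Kunneth components of a product. -/
lemma component_prod (hX : ∀ i, ComponentAlgebraic W X i) (hY : ∀ i, ComponentAlgebraic W Y i)
    (i : ℕ) : ComponentAlgebraic W (X.prod Y) i := by
  rw [component_iff, proj_prod]
  exact Submodule.sum_mem _ fun l _ => Sys.Op.ext (component_iff.1 (hX l))
    (component_iff.1 (hY (i - l)))

lemma component_pw (hX : ∀ i, ComponentAlgebraic W X i) : ∀ n i,
    ComponentAlgebraic W (pw X n) i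
  | 0 => hX
  | n + 1 => component_prod (component_pw hX n) hX

lemma kdist_pw (hC : ¬ ∀ i, ComponentAlgebraic W X i) (n : ℕ) : cycRank ops (pw X n) ≤
    ((n + 1) * X.dim + 1) * (totalBetti W X * kunnethDist W (pw X (n + 1))) := by
  have h1 := kdist_right hC (pw X n)
  rwa [Pool.Agent.Q55.Hs.dim_pw] at h1

lemma pdist_le_betti (i : ℕ) : projDist W X i ≤ totalBetti W X :=
  (pdist_le (Submodule.zero_mem _)).trans (Submodule.finrank_le _)

lemma kdist_le_betti : kunnethDist W X ≤ totalBetti W X :=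
  Finset.sup_le fun i _ => pdist_le_betti i

lemma nontrivial_of_kun (hC : ¬ ∀ i, ComponentAlgebraic W X i) : Nontrivial (W.H X) := by
  by_contra h
  rw [not_nontrivial_iff_subsingleton] at h
  apply hC
  rw [← kdist_eq_zero]
  have h1 := kdist_le_betti (W := W) (X := X)
  rw [totalBetti, finrank_zero_of_subsingleton] at h1
  omega

/-- The growth of the cycles on the powers. -/
lemma cyc_poly_all [Nontrivial (W.H X)] (hs : SignAlgebraic W X) (m : ℕ) :
    totalBetti W X ^ m ≤ cycRank ops (pw X m) * (m + 1) ^ (totalBetti W X ^ 2) := by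
  have hb : 1 ≤ totalBetti W X := Module.finrank_pos
  have hpos : ∀ n, 1 ≤ cycRank ops (pw X n) := by
    rcases zero_or (algSys W) X with h | ⟨h, -⟩
    · exfalso
      have h1 := cyc_poly (ops := ops) hs 0
      rw [← numDim_eq_cycRank W, h, zero_mul] at h1
      have h2 : 1 ≤ totalBetti W X ^ (2 * (0 + 1)) := Nat.one_le_pow _ _ hb
      omega
    · intro n
      rw [← numDim_eq_cycRank W]
      exact h n
  set b := totalBetti W X with hbdef
  rcases Nat.even_or_odd' m with ⟨n, rfl | rfl⟩
  · rcases n with _ | n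
    · have := hpos 0
      simp only [mul_zero, pow_zero, zero_add, one_pow, mul_one]
      exact this
    · have h1 := cyc_poly (ops := ops) hs n
      have h2 := a_pw_sup (algSys W) X (2 * n + 1) 0
      rw [numDim_eq_cycRank, numDim_eq_cycRank, numDim_eq_cycRank] at h2
      have h3 : cycRank ops (pw X (2 * n + 1)) ≤ cycRank ops (pw X (2 * (n + 1))) :=
        (Nat.le_mul_of_pos_right _ (hpos 0)).trans h2
      exact h1.trans (Nat.mul_le_mul h3 (Nat.pow_le_pow_left (by omega) _))
  · have h1 := cyc_poly (ops := ops) hs n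
    calc b ^ (2 * n + 1) ≤ b ^ (2 * (n + 1)) := Nat.pow_le_pow_right hb (by omega)
      _ ≤ _ := h1.trans (Nat.mul_le_mul_left _ (Nat.pow_le_pow_left (by omega) _))

/-- The polynomial bound. -/
theorem kdist_poly (hC : ¬ ∀ i, ComponentAlgebraic W X i) (hs : SignAlgebraic W X) (m : ℕ) :
    totalBetti W X ^ m ≤ totalBetti W X ^ 2 * (X.dim + 1) *
      (m + 1) ^ (totalBetti W X ^ 2 + 1) * kunnethDist W (pw X m) := by
  have hnt := nontrivial_of_kun hC
  have hb : 1 ≤ totalBetti W X := Module.finrank_pos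
  set b := totalBetti W X with hbdef
  rcases m with _ | m
  · have h0 : 1 ≤ kunnethDist W X := by
      rw [Nat.one_le_iff_ne_zero]
      exact fun h => hC (kdist_eq_zero.1 h)
    have h1 : 1 ≤ b ^ 2 * (X.dim + 1) * (0 + 1) ^ (b ^ 2 + 1) := by
      have : 1 ≤ b ^ 2 := Nat.one_le_pow _ _ hb
      rw [zero_add, one_pow, mul_one]
      exact Nat.mul_pos this (Nat.succ_pos _)
    exact Nat.mul_pos h1 h0
  · have h1 := cyc_poly_all (ops := ops) hs m
    have h2 := kdist_pw (ops := ops) hC m
    have h3 : (m + 1) * X.dim + 1 ≤ (X.dim + 1) * (m + 1) := by nlinarith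
    calc b ^ (m + 1) = b * b ^ m := by ring
      _ ≤ b * (cycRank ops (pw X m) * (m + 1) ^ (b ^ 2)) := Nat.mul_le_mul_left _ h1
      _ ≤ b * (((X.dim + 1) * (m + 1)) * (b * kunnethDist W (pw X (m + 1))) *
            (m + 1) ^ (b ^ 2)) :=
          Nat.mul_le_mul_left _ (Nat.mul_le_mul_right _
            (h2.trans (Nat.mul_le_mul_right _ h3)))
      _ = b ^ 2 * (X.dim + 1) * (m + 1) ^ (b ^ 2 + 1) * kunnethDist W (pw X (m + 1)) := by ring
      _ ≤ _ := Nat.mul_le_mul_right _ (Nat.mul_le_mul_left _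
          (Nat.pow_le_pow_left (by omega) _))

/-- The rate. -/
theorem kdist_rate (hC : ¬ ∀ i, ComponentAlgebraic W X i) (hs : SignAlgebraic W X) :
    Tendsto (fun m : ℕ => (kunnethDist W (pw X m) : ℝ) ^ ((1 : ℝ) / (m + 1))) atTop
      (𝓝 (totalBetti W X)) := by
  have hnt := nontrivial_of_kun hC
  refine tendsto_root (b := totalBetti W X) (C := totalBetti W X ^ 2 * (X.dim + 1))
    (N := totalBetti W X ^ 2 + 1) Module.finrank_pos (fun m => ?_) (kdist_poly hC hs)
  rw [← betti_pw]
  exact kdist_le_betti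

end Pool.Agent.Q55.Lr
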