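import Pool.Agent.Y133.Half.PairPow
import Pool.Agent.Y133.Half.CS

/-!
# Operators on products which are approximated by algebraic operators
-/

open CategoryTheory AlgebraicGeometry

set_option linter.unusedSectionVars false

universe u v

namespace Pool.Agent.Q55.Lr

open Module
open Pool.Agent.H914 Pool.Agent.H914.VarClass Pool.Agent.H914.VarClass.Obj
  Pool.Agent.H914.WeilCohomology Pool.Agent.Y133.Half

variable {k : Type u} [Field k] {𝒱 : VarClass k} {ops : CycleOps 𝒱}
  {W : WeilCohomology.{u, v} ops} {X Y : 𝒱.Obj} {S : Sys W}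

/-- Multiplication by a class of the system. -/
lemma op_mul {c : W.H X} (hc : c ∈ S.C X) : LinearMap.mulLeft W.K c ∈ S.Op X X := by
  have h1 : W.push (𝟙 X) ∘ₗ LinearMap.mulLeft W.K c ∈ S.Op X X := Sys.Op.pushMul (𝟙 X) hc
  have h2 : W.push (𝟙 X) ∘ₗ LinearMap.mulLeft W.K c = LinearMap.mulLeft W.K c := by
    apply LinearMap.ext
    intro x
    rw [LinearMap.comp_apply, W.push_id]
  rwa [h2] at h1

/-- The operator `x ↦ x × w`. -/
noncomputable def jw (W : WeilCohomology.{u, v} ops) (X : 𝒱.Obj) {Y : 𝒱.Obj} (w : W.H Y) :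
    W.H X →ₗ[W.K] W.H (X.prod Y) :=
  LinearMap.mulLeft W.K (W.map (snd X Y) w) ∘ₗ (W.map (fst X Y)).toLinearMap

lemma jw_apply {w : W.H Y} (hw : w ∈ PH W Y 0) (x : W.H X) : jw W X w x = xp W x w :=
  PH.even_comm (PH.map _ hw) _

lemma jw_op {w : W.H Y} (hw : w ∈ S.C Y) : jw W X w ∈ S.Op X (X.prod Y) :=
  Sys.Op.comp (op_mul (S.map _ hw)) (Sys.Op.map _)

/-- The operator `x × y ↦ tr (y v) x`. -/
noncomputable def ev (W : WeilCohomology.{u, v} ops) (X : 𝒱.Obj) {Y : 𝒱.Obj} (v : W.H Y) :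
    W.H (X.prod Y) →ₗ[W.K] W.H X :=
  W.push (fst X Y) ∘ₗ LinearMap.mulLeft W.K (W.map (snd X Y) v)

lemma ev_xp {v y : W.H Y} (hv : v ∈ PH W Y 0) (hy : y ∈ PH W Y 0) (x : W.H X) :
    ev W X v (xp W x y) = W.tr Y (y * v) • x := by
  rw [ev, LinearMap.comp_apply, LinearMap.mulLeft_apply, PH.even_comm (PH.map _ hv), xp_def,
    mul_assoc, ← map_mul (W.map (snd X Y)), ← xp_def]
  exact push_fst x (y * v) (by simpa using PH.mul hy hv)

lemma ev_op {v : W.H Y} (hv : v ∈ S.C Y) : ev W X v ∈ S.Op (X.prod Y) X :=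
  Sys.Op.pushMul (fst X Y) (S.map _ hv)

/-- **The slices.** If an operator `A × 1 + 1 × B` on a product is approximated by an operator of the
system, up to an operator of small rank, then `A` is an operator of the system. -/
theorem slice {A : Module.End W.K (W.H X)} {B : Module.End W.K (W.H Y)}
    (hB : ∀ y ∈ PH W Y 0, B y ∈ PH W Y 0)
    {u : Module.End W.K (W.H (X.prod Y))} (hu : u ∈ S.Op (X.prod Y) (X.prod Y))
    (h : finrank W.K (LinearMap.range (extOp W A 1 + extOp W 1 B - u)) * finrank W.K (W.H X) <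
      S.a Y) : A ∈ S.Op X X := by
  set E := extOp W A 1 + extOp W 1 B - u with hE
  let Φ : S.C Y →ₗ[W.K] W.H X →ₗ[W.K] LinearMap.range E :=
    LinearMap.mk₂ W.K (fun w x => E.rangeRestrict (xp W x (w : W.H Y)))
      (fun w w' x => by rw [Submodule.coe_add, xp_add_right, map_add])
      (fun r w x => by rw [Submodule.coe_smul, xp_smul_right, map_smul])
      (fun w x x' => by rw [xp_add_left, map_add])
      (fun r w x => by rw [xp_smul_left, map_smul])
  have h1 : ¬ LinearMap.ker Φ ≤ LinearMap.ker (S.F Y 1) := by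
    intro hle
    have h2 := LinearMap.finrank_range_add_finrank_ker (K := W.K) (V := S.C Y)
      (V₂ := W.H X →ₗ[W.K] LinearMap.range E) Φ
    have h3 := LinearMap.finrank_range_add_finrank_ker (S.F Y 1)
    have h4 := Submodule.finrank_mono hle
    have h5 : finrank W.K (LinearMap.range Φ) ≤
        finrank W.K (W.H X) * finrank W.K (LinearMap.range E) := by
      rw [← Module.finrank_linearMap (R := W.K) (S := W.K)]
      exact Submodule.finrank_le _
    have h6 : S.a Y = finrank W.K (LinearMap.range (S.F Y 1)) := rfl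
    rw [h6, mul_comm] at h
    omega
  obtain ⟨w, hw, hw'⟩ := SetLike.not_le_iff_exists.1 h1
  have h2 : ∃ v : S.C Y, W.tr Y ((w : W.H Y) * v) ≠ 0 := by
    by_contra hcon
    push Not at hcon
    apply hw'
    rw [LinearMap.mem_ker]
    apply LinearMap.ext
    intro v
    rw [Sys.F_apply, Module.End.one_apply, hcon v]
    rfl
  obtain ⟨v, hv⟩ := h2
  have hwe := S.even w.2
  have hve := S.even v.2
  have h3 : ∀ x, E (xp W x (w : W.H Y)) = 0 := by
    intro x
    have h4 := LinearMap.congr_fun (LinearMap.mem_ker.1 hw) x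
    exact congrArg Subtype.val h4
  -- the slice of the approximation
  have h4 : ev W X (v : W.H Y) ∘ₗ u ∘ₗ jw W X (w : W.H Y) =
      W.tr Y ((w : W.H Y) * v) • A + W.tr Y (B w * v) • (LinearMap.id : Module.End W.K (W.H X)) := by
    apply LinearMap.ext
    intro x
    have h5 := h3 x
    rw [hE, LinearMap.sub_apply, sub_eq_zero, LinearMap.add_apply, extOp_xp, extOp_xp,
      Module.End.one_apply, Module.End.one_apply] at h5
    rw [LinearMap.comp_apply, LinearMap.comp_apply, jw_apply hwe, ← h5, map_add,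
      ev_xp hve hwe, ev_xp hve (hB _ hwe)]
    rfl
  have h5 : ev W X (v : W.H Y) ∘ₗ u ∘ₗ jw W X (w : W.H Y) ∈ S.Op X X :=
    Sys.Op.comp (ev_op v.2) (Sys.Op.comp hu (jw_op w.2))
  rw [h4] at h5
  have h6 : W.tr Y ((w : W.H Y) * v) • A ∈ S.Op X X := by
    have h7 := Submodule.sub_mem _ h5 (Submodule.smul_mem _ (W.tr Y (B w * v))
      (Sys.Op.id (S := S) (X := X)))
    rwa [add_sub_cancel_right] at h7
  have h7 := Submodule.smul_mem _ (W.tr Y ((w : W.H Y) * v))⁻¹ h6
  rwa [smul_smul, inv_mul_cancel₀ hv, one_smul] at h7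

end Pool.Agent.Q55.Lr
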