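import Pool.Agent.Q55.Lr.Defs
import Pool.Agent.Q55.Lr.Slice
import Pool.Agent.Q55.Oc.Main
import Pool.Agent.Q55.Gb.Lev
import Pool.Agent.Q55.ZeroOne
import Pool.Agent.W537.RangeA

/-!
# The lowering operator
-/

open CategoryTheory AlgebraicGeometry

set_option linter.unusedSectionVars false

universe u v

namespace Pool.Agent.Q55.Lr

open Module
open Pool.Agent.H914 Pool.Agent.H914.VarClass Pool.Agent.H914.VarClass.Obj
  Pool.Agent.H914.WeilCohomology Pool.Agent.Y133.Half Pool.Agent.H447
open Pool.Agent.W550.B (IsLefschetzDivisor)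
open Pool.Agent.Q55.Od (pd pd_cyc)

section Lin

variable {K : Type*} [Field K] [CharZero K] {V : Type*} [AddCommGroup V] [Module K V]
  {gr : ℕ → Submodule K V} {n : ℕ} {L f f' H : Module.End K V}

/-- The lowering operator of a triple is unique. -/
lemma sl2_unique [Module.Finite K V] (t : Sl2 H L f) (t' : Sl2 H L f') : f = f' := by
  rw [← sub_eq_zero]
  apply e_pow_inj (Pool.Agent.W537.sl2_adL t) (c := 2)
  · rw [Pool.Agent.W537.adL_apply]
    have h1 := t.hf
    have h2 := t'.hf
    have h3 : H * (f - f') - (f - f') * H = -(2 * (f - f')) := by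
      calc H * (f - f') - (f - f') * H = (H * f - f * H) - (H * f' - f' * H) := by noncomm_ring
        _ = _ := by rw [h1, h2]; noncomm_ring
    rw [h3]
    push_cast
    rw [neg_smul, two_smul, two_mul]
  · have h1 : Pool.Agent.W537.adL K L (f - f') = 0 := by
      rw [Pool.Agent.W537.adL_apply]
      calc L * (f - f') - (f - f') * L = (L * f - f * L) - (L * f' - f' * L) := by noncomm_ring
        _ = 0 := by rw [t.ef, t'.ef, sub_self]
    rw [pow_two, Module.End.mul_apply, h1, map_zero]

/-- The operators which lower the degree by two. -/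
lemma isHom_iff : IsHom gr (-2) f ↔
    (∀ i, ∀ x ∈ gr (i + 2), f x ∈ gr i) ∧ (∀ i < 2, ∀ x ∈ gr i, f x = 0) := by
  constructor
  · intro hf
    constructor
    · intro i x hx
      have h1 := hf (i + 2 : ℕ) x (by rwa [grZ_natCast])
      rwa [show ((i + 2 : ℕ) : ℤ) + -2 = (i : ℤ) by push_cast; ring, grZ_natCast] at h1
    · intro i hi x hx
      have h1 := hf (i : ℕ) x (by rwa [grZ_natCast])
      rwa [grZ_of_neg (by omega), Submodule.mem_bot] at h1
  · rintro ⟨h1, h2⟩ i x hx
    by_cases h0 : 0 ≤ i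
    · lift i to ℕ using h0
      rw [grZ_natCast] at hx
      by_cases hi : i < 2
      · rw [h2 i hi x hx]
        exact Submodule.zero_mem _
      · obtain ⟨j, rfl⟩ : ∃ j, i = j + 2 := ⟨i - 2, by omega⟩
        rw [show ((j + 2 : ℕ) : ℤ) + -2 = (j : ℤ) by push_cast; ring, grZ_natCast]
        exact h1 j x hx
    · rw [grZ_of_neg (by omega), Submodule.mem_bot] at hx
      rw [hx, map_zero]
      exact Submodule.zero_mem _

/-- The lowering operators are the lowering operators of the triples. -/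
lemma isLowering_iff (h : DirectSum.IsInternal gr) (hbd : ∀ i, 2 * n + 1 ≤ i → gr i = ⊥)
    (hL : IsHom gr 2 L) : IsLowering gr n L f ↔ Sl2 (wt h n) L f := by
  have hwt : ∀ (i : ℕ) (x : V), x ∈ gr i → wt h n x = ((i : K) - n) • x := by
    intro i x hx
    rw [wt, scal_apply _ _ hx, node]
    push_cast
    rfl
  constructor
  · rintro ⟨h1, h2, h3⟩
    have hf : IsHom gr (-2) f := isHom_iff.2 ⟨h1, h2⟩
    refine ⟨?_, ?_, ?_⟩
    · apply gr_ext h
      intro i x hx
      rw [LinearMap.sub_apply, Module.End.mul_apply, Module.End.mul_apply, h3 i x hx, hwt i x hx]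
    · have h4 := hL.wt_comm h n
      rw [h4, add_sub_cancel_left, two_mul, ← two_smul K]
      push_cast
      rfl
    · have h4 := hf.wt_comm h n
      rw [h4, add_sub_cancel_left, two_mul, ← two_smul K]
      push_cast
      rw [neg_smul]
  · intro t
    have hval : ∀ (i : ℕ) (x : V), x ∈ gr i → wt h n (f x) = ((i : K) - 2 - n) • f x := by
      intro i x hx
      have h4 := congrArg (fun F => F x) t.hf
      simp only [LinearMap.sub_apply, Module.End.mul_apply, hwt i x hx, map_smul,
        LinearMap.neg_apply, two_mul, LinearMap.add_apply] at h4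
      rw [sub_eq_iff_eq_add] at h4
      rw [h4, sub_smul, sub_smul, sub_smul, two_smul]
      abel
    refine ⟨?_, ?_, ?_⟩
    · intro i x hx
      refine (Pool.Agent.W552.mem_gr_of_wt h hbd (hval (i + 2) x hx)).1 i ?_
      push_cast
      ring
    · intro i hi x hx
      refine (Pool.Agent.W552.mem_gr_of_wt h hbd (hval i x hx)).2 ?_
      intro j hj
      have h5 : ((i : K)) = (j + 2 : ℕ) := by
        push_cast
        linear_combination hj
      have h6 : i = j + 2 := Nat.cast_injective h5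
      omega
    · intro i x hx
      have h4 := congrArg (fun F => F x) t.ef
      simp only [LinearMap.sub_apply, Module.End.mul_apply, hwt i x hx] at h4
      exact h4

end Lin

variable {k : Type u} [Field k] {𝒱 : VarClass k} {ops : CycleOps 𝒱}
  {W : WeilCohomology.{u, v} ops} {X Y : 𝒱.Obj} {D : X.Cycles} {E : Y.Cycles}

lemma mem_algOps {u : Module.End W.K (W.H X)} : IsAlgOp W X u ↔ u ∈ (algSys W).Op X X := by
  constructor
  · rintro ⟨c, hc, rfl⟩
    rw [algSet_span] at hc
    exact Sys.Op.corr hc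
  · intro hu
    obtain ⟨c, hc, rfl⟩ := Sys.mem_Op.1 hu
    exact ⟨c, by rw [algSet_span]; exact hc, rfl⟩

lemma lowering_iff (hD : X.IsCyc 1 D) {f : Module.End W.K (W.H X)} :
    IsLowering (W.gr X) X.dim (LinearMap.mulLeft W.K (W.cl X D)) f ↔
      Sl2 (wt (W.isInternal X) X.dim) (LinearMap.mulLeft W.K (W.cl X D)) f :=
  isLowering_iff (W.isInternal X) W_hbd (mulLeft_isHom hD)

/-- The value of the distance. -/
lemma dist_le (hD : X.IsCyc 1 D) {f u : Module.End W.K (W.H X)}
    (t : Sl2 (wt (W.isInternal X) X.dim) (LinearMap.mulLeft W.K (W.cl X D)) f)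
    (hu : u ∈ (algSys W).Op X X) : lambdaDist W X D ≤ finrank W.K (LinearMap.range (f - u)) :=
  Nat.sInf_le ⟨f, u, (lowering_iff hD).2 t, mem_algOps.2 hu, rfl⟩

/-- The distance is attained. -/
lemma dist_spec (hD : X.IsCyc 1 D) {f : Module.End W.K (W.H X)}
    (t : Sl2 (wt (W.isInternal X) X.dim) (LinearMap.mulLeft W.K (W.cl X D)) f) :
    ∃ u ∈ (algSys W).Op X X, finrank W.K (LinearMap.range (f - u)) = lambdaDist W X D := by
  have h1 : lambdaDist W X D ∈ {r | ∃ f u, IsLowering (W.gr X) X.dim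
      (LinearMap.mulLeft W.K (W.cl X D)) f ∧ IsAlgOp W X u ∧
      Module.finrank W.K (LinearMap.range (f - u)) = r} :=
    Nat.sInf_mem ⟨_, f, 0, (lowering_iff hD).2 t, mem_algOps.2 (Submodule.zero_mem _), rfl⟩
  obtain ⟨f', u, hf', hu, h⟩ := h1
  have h2 : f' = f := sl2_unique ((lowering_iff hD).1 hf') t
  subst h2
  exact ⟨u, mem_algOps.1 hu, h⟩

/-- If the lowering operator is algebraic, the conjecture B holds. -/
lemma lefschetzB_of_mem (hX : IsLefschetzDivisor W X D) {f : Module.End W.K (W.H X)}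
    (t : Sl2 (wt (W.isInternal X) X.dim) (LinearMap.mulLeft W.K (W.cl X D)) f)
    (hf : f ∈ (algSys W).Op X X) : LefschetzB W X D := by
  refine ((lefschetzB_tfae hX.1 hX.2).out 0 2).2 ?_
  intro c hc
  have hdeg : Pool.Agent.Q55.Gb.DegOp W X c (f ^ c) := by
    refine ⟨Sys.Op.pow hf c, ?_⟩
    have h1 := (((lowering_iff hX.1).2 t))
    have h2 : IsHom (W.gr X) (-2) f := isHom_iff.2 ⟨h1.1, h1.2.1⟩
    have h3 := h2.pow c
    rwa [show (c : ℤ) * -2 = -(2 * (c : ℤ)) by ring] at h3
  obtain ⟨z, hz, hzf⟩ := Pool.Agent.Q55.Gb.exists_of_degOp (c := X.dim - c) (by omega) hdeg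
  refine ⟨z, ?_, ?_⟩
  · have h4 : (((X.dim - c : ℕ) : ℤ)) = (X.dim : ℤ) - c := by omega
    rw [← h4]
    exact hz
  · intro a ha h0
    rw [hzf] at h0
    apply Pool.Agent.H447.f_pow_inj t _ h0
    rw [wt, scal_apply _ _ ha]
    congr 1
    rw [node]
    push_cast
    ring

/-- If the conjecture B holds, the lowering operator is algebraic. -/
lemma mem_of_lefschetzB (hX : IsLefschetzDivisor W X D) (hB : LefschetzB W X D)
    {f : Module.End W.K (W.H X)}
    (t : Sl2 (wt (W.isInternal X) X.dim) (LinearMap.mulLeft W.K (W.cl X D)) f) :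
    f ∈ (algSys W).Op X X := by
  obtain ⟨g, t', hg⟩ := Pool.Agent.Q55.Oc.exists_f hX.1 hX.2
  rw [sl2_unique t t']
  have h1 := hg hB
  obtain ⟨Y, ⟨r, hr, z, hz, hY⟩ | ⟨hd', hY⟩, rfl⟩ := h1
  · rw [hY]
    exact Sys.Op.corr (Submodule.subset_span (Set.mem_iUnion.2 ⟨_, _, hz, rfl⟩))
  · rw [hY]
    exact Submodule.zero_mem _

end Pool.Agent.Q55.Lr
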