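import Mathlib

/-!
# Roots of sequences which are polynomially close to a geometric sequence
-/

open Filter Topology

namespace Pool.Agent.Q55.Lr

lemma tendsto_root {a : ℕ → ℕ} {b C N : ℕ} (hb : 1 ≤ b) (hle : ∀ m, a m ≤ b ^ (m + 1))
    (hge : ∀ m, b ^ m ≤ C * (m + 1) ^ N * a m) :
    Tendsto (fun m : ℕ => (a m : ℝ) ^ ((1 : ℝ) / (m + 1))) atTop (𝓝 b) := by
  have hb0 : (0 : ℝ) < b := by exact_mod_cast hb
  have hC : 0 < C := by
    rcases Nat.eq_zero_or_pos C with h | h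
    · have := hge 0
      rw [h] at this
      simp at this
    · exact h
  have hC0 : (0 : ℝ) < C := by exact_mod_cast hC
  have hcast : Tendsto (fun m : ℕ => (m : ℝ) + 1) atTop atTop :=
    tendsto_atTop_add_const_right _ _ tendsto_natCast_atTop_atTop
  have hinv : Tendsto (fun m : ℕ => (1 : ℝ) / ((m : ℝ) + 1)) atTop (𝓝 0) :=
    tendsto_one_div_add_atTop_nhds_zero_nat
  have h1 : Tendsto (fun m : ℕ => (C : ℝ) ^ ((1 : ℝ) / ((m : ℝ) + 1))) atTop (𝓝 1) := by
    have := (Real.continuousAt_const_rpow (a := (C : ℝ)) (b := 0) hC0.ne').tendsto.comp hinv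
    rwa [Real.rpow_zero] at this
  have h2 : Tendsto (fun m : ℕ => ((m : ℝ) + 1) ^ ((N : ℝ) / ((m : ℝ) + 1))) atTop (𝓝 1) := by
    have := (tendsto_rpow_div_mul_add (N : ℝ) 1 0 (by norm_num)).comp hcast
    refine this.congr fun m => ?_
    simp [Function.comp]
  have h3 : Tendsto (fun m : ℕ => (b : ℝ) ^ ((m : ℝ) / ((m : ℝ) + 1))) atTop (𝓝 b) := by
    have h4 : Tendsto (fun m : ℕ => (m : ℝ) / ((m : ℝ) + 1)) atTop (𝓝 1) := by
      have h5 : Tendsto (fun m : ℕ => 1 - (1 : ℝ) / ((m : ℝ) + 1)) atTop (𝓝 (1 - 0)) :=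
        tendsto_const_nhds.sub hinv
      rw [sub_zero] at h5
      refine h5.congr fun m => ?_
      have : (m : ℝ) + 1 ≠ 0 := by positivity
      field_simp
      ring
    have := (Real.continuousAt_const_rpow (a := (b : ℝ)) (b := 1) hb0.ne').tendsto.comp h4
    rwa [Real.rpow_one] at this
  have h6 : Tendsto (fun m : ℕ => (b : ℝ) ^ ((m : ℝ) / ((m : ℝ) + 1)) /
      ((C : ℝ) ^ ((1 : ℝ) / ((m : ℝ) + 1)) * ((m : ℝ) + 1) ^ ((N : ℝ) / ((m : ℝ) + 1)))) atTop
      (𝓝 b) := by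
    have := h3.div (h1.mul h2) (by norm_num)
    rwa [one_mul, div_one] at this
  refine tendsto_of_tendsto_of_tendsto_of_le_of_le h6 tendsto_const_nhds ?_ ?_
  · intro m
    have hm : (0 : ℝ) < (m : ℝ) + 1 := by positivity
    have h7 : (b : ℝ) ^ m / (C * ((m : ℝ) + 1) ^ N) ≤ a m := by
      rw [div_le_iff₀ (by positivity), mul_comm]
      exact_mod_cast hge m
    have h8 := Real.rpow_le_rpow (by positivity) h7 (le_of_lt (one_div_pos.2 hm))
    refine le_trans (le_of_eq ?_) h8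
    rw [Real.div_rpow (by positivity) (by positivity), Real.mul_rpow hC0.le (by positivity),
      ← Real.rpow_natCast, ← Real.rpow_natCast, ← Real.rpow_mul hb0.le, ← Real.rpow_mul hm.le,
      mul_one_div, mul_one_div]
  · intro m
    have hm : (0 : ℝ) < (m : ℝ) + 1 := by positivity
    have h7 : (a m : ℝ) ≤ (b : ℝ) ^ (m + 1) := by exact_mod_cast hle m
    have h8 := Real.rpow_le_rpow (Nat.cast_nonneg _) h7 (le_of_lt (one_div_pos.2 hm))
    refine h8.trans (le_of_eq ?_)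
    rw [← Real.rpow_natCast, ← Real.rpow_mul hb0.le]
    push_cast
    rw [mul_one_div_cancel hm.ne', Real.rpow_one]

end Pool.Agent.Q55.Lr
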