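import Pool.Agent.Q55.Lr.Slice

/-!
# Operators on products which are approximated by algebraic operators, II
-/

open CategoryTheory AlgebraicGeometry

set_option linter.unusedSectionVars false

universe u v

namespace Pool.Agent.Q55.Lr

open Module
open Pool.Agent.H914 Pool.Agent.H914.VarClass Pool.Agent.H914.VarClass.Obj
  Pool.Agent.H914.WeilCohomology Pool.Agent.Y133.Half

variable {k : Type u} [Field k] {𝒱 : VarClass k} {ops : CycleOps 𝒱}
  {W : WeilCohomology.{u, v} ops} {X Y : 𝒱.Obj} {S : Sys W}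

/-- The operator `x ↦ w × x`. -/
noncomputable def jl (W : WeilCohomology.{u, v} ops) (X : 𝒱.Obj) {Y : 𝒱.Obj} (w : W.H Y) :
    W.H X →ₗ[W.K] W.H (Y.prod X) :=
  LinearMap.mulLeft W.K (W.map (fst Y X) w) ∘ₗ (W.map (snd Y X)).toLinearMap

lemma jl_apply (w : W.H Y) (x : W.H X) : jl W X w x = xp W w x := rfl

lemma jl_op {w : W.H Y} (hw : w ∈ S.C Y) : jl W X w ∈ S.Op X (Y.prod X) :=
  Sys.Op.comp (op_mul (S.map _ hw)) (Sys.Op.map _)

/-- The operator `y × x ↦ tr (v y) x`. -/
noncomputable def el (W : WeilCohomology.{u, v} ops) (X : 𝒱.Obj) {Y : 𝒱.Obj} (v : W.H Y) :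
    W.H (Y.prod X) →ₗ[W.K] W.H X :=
  W.push (snd Y X) ∘ₗ LinearMap.mulLeft W.K (W.map (fst Y X) v)

lemma el_xp (v y : W.H Y) (x : W.H X) : el W X v (xp W y x) = W.tr Y (v * y) • x := by
  rw [el, LinearMap.comp_apply, LinearMap.mulLeft_apply, xp_def, ← mul_assoc, ← map_mul,
    W.push_snd]

lemma el_op {v : W.H Y} (hv : v ∈ S.C Y) : el W X v ∈ S.Op (Y.prod X) X :=
  Sys.Op.pushMul (snd Y X) (S.map _ hv)

/-- **The slices.** The same for the second factor. -/
theorem slice_right {A : Module.End W.K (W.H X)} {B : Module.End W.K (W.H Y)}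
    {u : Module.End W.K (W.H (Y.prod X))} (hu : u ∈ S.Op (Y.prod X) (Y.prod X))
    (h : finrank W.K (LinearMap.range (extOp W B 1 + extOp W 1 A - u)) * finrank W.K (W.H X) <
      S.a Y) : A ∈ S.Op X X := by
  set E := extOp W B 1 + extOp W 1 A - u with hE
  let Φ : S.C Y →ₗ[W.K] W.H X →ₗ[W.K] LinearMap.range E :=
    LinearMap.mk₂ W.K (fun w x => E.rangeRestrict (xp W (w : W.H Y) x))
      (fun w w' x => by rw [Submodule.coe_add, xp_add_left, map_add])
      (fun r w x => by rw [Submodule.coe_smul, xp_smul_left, map_smul])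
      (fun w x x' => by rw [xp_add_right, map_add])
      (fun r w x => by rw [xp_smul_right, map_smul])
  have h1 : ¬ LinearMap.ker Φ ≤ LinearMap.ker (S.F Y 1) := by
    intro hle
    have h2 := LinearMap.finrank_range_add_finrank_ker (K := W.K) (V := S.C Y)
      (V₂ := W.H X →ₗ[W.K] LinearMap.range E) Φ
    have h3 := LinearMap.finrank_range_add_finrank_ker (S.F Y 1)
    have h4 := Submodule.finrank_mono hle
    have h5 : finrank W.K (LinearMap.range Φ) ≤
        finrank W.K (W.H X) * finrank W.K (LinearMap.range E) := by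
      rw [← Module.finrank_linearMap (R := W.K) (S := W.K)]
      exact Submodule.finrank_le _
    have h6 : S.a Y = finrank W.K (LinearMap.range (S.F Y 1)) := rfl
    rw [h6, mul_comm] at h
    omega
  obtain ⟨w, hw, hw'⟩ := SetLike.not_le_iff_exists.1 h1
  have h2 : ∃ v : S.C Y, W.tr Y ((w : W.H Y) * v) ≠ 0 := by
    by_contra hcon
    push Not at hcon
    apply hw'
    rw [LinearMap.mem_ker]
    apply LinearMap.ext
    intro v
    rw [Sys.F_apply, Module.End.one_apply, hcon v]
    rfl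
  obtain ⟨v, hv⟩ := h2
  rw [PH.even_comm (S.even w.2)] at hv
  have h3 : ∀ x, E (xp W (w : W.H Y) x) = 0 := by
    intro x
    have h4 := LinearMap.congr_fun (LinearMap.mem_ker.1 hw) x
    exact congrArg Subtype.val h4
  have h4 : el W X (v : W.H Y) ∘ₗ u ∘ₗ jl W X (w : W.H Y) =
      W.tr Y ((v : W.H Y) * w) • A +
        W.tr Y ((v : W.H Y) * B w) • (LinearMap.id : Module.End W.K (W.H X)) := by
    apply LinearMap.ext
    intro x
    have h5 := h3 x
    rw [hE, LinearMap.sub_apply, sub_eq_zero, LinearMap.add_apply, extOp_xp, extOp_xp,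
      Module.End.one_apply, Module.End.one_apply] at h5
    rw [LinearMap.comp_apply, LinearMap.comp_apply, jl_apply, ← h5, map_add, el_xp, el_xp,
      add_comm]
    rfl
  have h5 : el W X (v : W.H Y) ∘ₗ u ∘ₗ jl W X (w : W.H Y) ∈ S.Op X X :=
    Sys.Op.comp (el_op v.2) (Sys.Op.comp hu (jl_op w.2))
  rw [h4] at h5
  have h6 : W.tr Y ((v : W.H Y) * w) • A ∈ S.Op X X := by
    have h7 := Submodule.sub_mem _ h5 (Submodule.smul_mem _ (W.tr Y ((v : W.H Y) * B w))
      (Sys.Op.id (S := S) (X := X)))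
    rwa [add_sub_cancel_right] at h7
  have h7 := Submodule.smul_mem _ (W.tr Y ((v : W.H Y) * w))⁻¹ h6
  rwa [smul_smul, inv_mul_cancel₀ hv, one_smul] at h7

/-- **The slices.** The distance does not decrease under products. -/
theorem slice_mono {A : Module.End W.K (W.H X)} {B : Module.End W.K (W.H Y)}
    {u : Module.End W.K (W.H (X.prod Y))} (hu : u ∈ S.Op (X.prod Y) (X.prod Y))
    (hB : ∀ y ∈ PH W Y 0, B y ∈ PH W Y 0) {w v : W.H Y} (hw : w ∈ S.C Y) (hv : v ∈ S.C Y)
    (hwv : W.tr Y (w * v) = 1) : ∃ u' ∈ S.Op X X, finrank W.K (LinearMap.range (A - u')) ≤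
      finrank W.K (LinearMap.range (extOp W A 1 + extOp W 1 B - u)) := by
  set E := extOp W A 1 + extOp W 1 B - u with hE
  have hwe := S.even hw
  have hve := S.even hv
  refine ⟨ev W X v ∘ₗ u ∘ₗ jw W X w -
    W.tr Y (B w * v) • (LinearMap.id : Module.End W.K (W.H X)), ?_, ?_⟩
  · exact Submodule.sub_mem _ (Sys.Op.comp (ev_op hv) (Sys.Op.comp hu (jw_op hw)))
      (Submodule.smul_mem _ _ Sys.Op.id)
  · have h1 : A - (ev W X v ∘ₗ u ∘ₗ jw W X w -
        W.tr Y (B w * v) • (LinearMap.id : Module.End W.K (W.H X))) =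
        ev W X v ∘ₗ E ∘ₗ jw W X w := by
      apply LinearMap.ext
      intro x
      have h2 : (extOp W A 1 + extOp W 1 B : Module.End W.K (W.H (X.prod Y))) (jw W X w x) = xp W (A x) w + xp W x (B w) := by
        rw [LinearMap.add_apply, jw_apply hwe, extOp_xp, extOp_xp, Module.End.one_apply,
          Module.End.one_apply]
      have h3 : (ev W X v ∘ₗ E ∘ₗ jw W X w) x = ev W X v
          ((extOp W A 1 + extOp W 1 B : Module.End W.K (W.H (X.prod Y))) (jw W X w x)) - ev W X v (u (jw W X w x)) := by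
        rw [← map_sub]
        rfl
      rw [h3, h2, map_add, ev_xp hve hwe, ev_xp hve (hB _ hwe), hwv, one_smul]
      change A x - (ev W X v (u (jw W X w x)) - W.tr Y (B w * v) • x) = _
      abel
    rw [h1, LinearMap.range_comp]
    refine le_trans (Submodule.finrank_map_le _ _) (Submodule.finrank_mono ?_)
    rw [LinearMap.range_comp]
    exact LinearMap.map_le_range

end Pool.Agent.Q55.Lr
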