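import Pool.Agent.Q55.Lr.Low
import Pool.Agent.Q55.Lr.Slice2
import Pool.Agent.Q55.Lr.Seq
import Pool.Agent.Q55.Rate.Main

/-!
# The rank distance of the lowering operator on products
-/

open CategoryTheory AlgebraicGeometry Filter Topology

set_option linter.unusedSectionVars false

universe u v

namespace Pool.Agent.Q55.Lr

open Module
open Pool.Agent.H914 Pool.Agent.H914.VarClass Pool.Agent.H914.VarClass.Obj
  Pool.Agent.H914.WeilCohomology Pool.Agent.Y133.Half Pool.Agent.H447 Pool.Agent.Q55.Rate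
open Pool.Agent.W550.B (IsLefschetzDivisor)
open Pool.Agent.Q55.Od (pd pd_cyc)
open Pool.Agent.Q55.Oc (exists_f isLefschetzDivisor_prod lefschetzB_prod)

variable {k : Type u} [Field k] {𝒱 : VarClass k} {ops : CycleOps 𝒱}
  {W : WeilCohomology.{u, v} ops} {X Y : 𝒱.Obj} {D : X.Cycles} {E : Y.Cycles}

/-- The lowering operator preserves the even classes. -/
lemma low_even (hD : X.IsCyc 1 D) {f : Module.End W.K (W.H X)}
    (t : Sl2 (wt (W.isInternal X) X.dim) (LinearMap.mulLeft W.K (W.cl X D)) f) :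
    ∀ y ∈ PH W X 0, f y ∈ PH W X 0 := by
  obtain ⟨h1, h2, -⟩ := (lowering_iff hD).2 t
  intro y hy
  refine PH.ind (p := fun y => f y ∈ PH W X 0) ?_ ?_ ?_ hy
  · intro i hi x hx
    by_cases h0 : i < 2
    · rw [h2 i h0 x hx]
      exact Submodule.zero_mem _
    · obtain ⟨j, rfl⟩ : ∃ j, i = j + 2 := ⟨i - 2, by omega⟩
      exact PH.of' (by omega) (h1 j x hx)
  · rw [map_zero]
    exact Submodule.zero_mem _
  · intro a b ha hb
    rw [map_add]
    exact Submodule.add_mem _ ha hb

/-- The lowering operator of a product. -/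
lemma low_prod (hE : Y.IsCyc 1 E) {f : Module.End W.K (W.H X)} {g : Module.End W.K (W.H Y)}
    (t : Sl2 (wt (W.isInternal X) X.dim) (LinearMap.mulLeft W.K (W.cl X D)) f)
    (t' : Sl2 (wt (W.isInternal Y) Y.dim) (LinearMap.mulLeft W.K (W.cl Y E)) g) :
    Sl2 (wt (W.isInternal (X.prod Y)) (X.prod Y).dim)
      (LinearMap.mulLeft W.K (W.cl (X.prod Y) (pd ops D E))) (extOp W f 1 + extOp W 1 g) := by
  have h1 := sl2_prod (Y := X) (Z := Y) t t'
  rwa [← wt_prod, ← mulLeft_prod hE] at h1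

theorem dist_eq_zero (hX : IsLefschetzDivisor W X D) :
    lambdaDist W X D = 0 ↔ LefschetzB W X D := by
  obtain ⟨f, t, -⟩ := exists_f hX.1 hX.2
  constructor
  · intro h
    obtain ⟨u, hu, h1⟩ := dist_spec hX.1 t
    rw [h] at h1
    have h2 : f - u = 0 := by
      rw [Submodule.finrank_eq_zero] at h1
      exact LinearMap.range_eq_bot.1 h1
    rw [sub_eq_zero] at h2
    exact lefschetzB_of_mem hX t (h2 ▸ hu)
  · intro h
    have h1 := dist_le hX.1 t (mem_of_lefschetzB hX h t)
    rw [sub_self, LinearMap.range_zero, finrank_bot] at h1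
    omega

/-- **The rank distance on products, the first factor.** -/
theorem dist_left (hX : IsLefschetzDivisor W X D) (hY : IsLefschetzDivisor W Y E)
    (hB : ¬ LefschetzB W X D) :
    cycRank ops Y ≤ totalBetti W X * lambdaDist W (X.prod Y) (pd ops D E) := by
  obtain ⟨f, t, -⟩ := exists_f hX.1 hX.2
  obtain ⟨g, t', -⟩ := exists_f hY.1 hY.2
  obtain ⟨u, hu, h1⟩ := dist_spec (pd_cyc hX.1 hY.1) (low_prod hY.1 t t')
  by_contra hlt
  push Not at hlt
  rw [← h1, mul_comm, totalBetti, ← numDim_eq_cycRank W] at hlt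
  exact hB (lefschetzB_of_mem hX t (slice (low_even hY.1 t') hu hlt))

/-- **The rank distance on products, the second factor.** -/
theorem dist_right (hX : IsLefschetzDivisor W X D) (hY : IsLefschetzDivisor W Y E)
    (hB : ¬ LefschetzB W X D) :
    cycRank ops Y ≤ totalBetti W X * lambdaDist W (Y.prod X) (pd ops E D) := by
  obtain ⟨f, t, -⟩ := exists_f hX.1 hX.2
  obtain ⟨g, t', -⟩ := exists_f hY.1 hY.2
  obtain ⟨u, hu, h1⟩ := dist_spec (pd_cyc hY.1 hX.1) (low_prod hX.1 t' t)
  by_contra hlt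
  push Not at hlt
  rw [← h1, mul_comm, totalBetti, ← numDim_eq_cycRank W] at hlt
  exact hB (lefschetzB_of_mem hX t (slice_right hu hlt))

/-- The top self-intersection of a Lefschetz divisor. -/
lemma tr_top_ne [Nontrivial (W.H X)] (hX : IsLefschetzDivisor W X D) :
    W.tr X (W.cl X D ^ X.dim) ≠ 0 := by
  intro h0
  have h1 : W.cl X D ^ X.dim = 0 := by
    apply W.nondeg
    intro b
    have h2 : b ∈ (⨆ i, W.gr X i : Submodule W.K (W.H X)) := by
      rw [(W.isInternal X).submodule_iSup_eq_top]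
      exact Submodule.mem_top
    have hω : W.cl X D ^ X.dim ∈ W.gr X (2 * X.dim) := by
      rw [← Pool.Agent.Y163.cl_divPow_fund]
      exact W.cl_mem (Pool.Agent.Y163.divPow_fund_mem hX.1 _)
    refine Submodule.iSup_induction _ (motive := fun b => W.tr X (W.cl X D ^ X.dim * b) = 0) h2
      ?_ ?_ ?_
    · intro i b hb
      rcases Nat.eq_zero_or_pos i with rfl | hi
      · rw [W.gr_zero, Submodule.mem_span_singleton] at hb
        obtain ⟨c, rfl⟩ := hb
        rw [mul_smul_comm, mul_one, map_smul, h0, smul_zero]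
      · have h3 := W.mul_mem hω hb
        rw [W.gr_eq_bot X _ (by omega), Submodule.mem_bot] at h3
        rw [h3, map_zero]
    · rw [mul_zero, map_zero]
    · intro a b ha hb
      rw [mul_add, map_add, ha, hb, add_zero]
  have h2 := (hX.2 0 (Nat.zero_le _)).1 1 (W.one_mem X) (by
    rw [Nat.sub_zero, LinearMap.pow_mulLeft, LinearMap.mulLeft_apply, mul_one, h1])
  exact one_ne_zero h2

/-- The rank distance does not decrease under products. -/
theorem dist_mono [Nontrivial (W.H Y)] (hX : IsLefschetzDivisor W X D)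
    (hY : IsLefschetzDivisor W Y E) :
    lambdaDist W X D ≤ lambdaDist W (X.prod Y) (pd ops D E) := by
  obtain ⟨f, t, -⟩ := exists_f hX.1 hX.2
  obtain ⟨g, t', -⟩ := exists_f hY.1 hY.2
  obtain ⟨u, hu, h1⟩ := dist_spec (pd_cyc hX.1 hY.1) (low_prod hY.1 t t')
  have h2 := tr_top_ne hY
  have h3 : W.cl Y E ^ Y.dim ∈ (algSys W).C Y := by
    rw [← Pool.Agent.Y163.cl_divPow_fund]
    exact Submodule.subset_span
      (Set.mem_iUnion.2 ⟨_, _, Pool.Agent.Y163.divPow_fund_mem hY.1 _, rfl⟩)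
  obtain ⟨u', hu', h4⟩ := slice_mono (A := f) hu (low_even hY.1 t')
    (w := (W.tr Y (W.cl Y E ^ Y.dim))⁻¹ • W.cl Y E ^ Y.dim) (v := 1)
    (Submodule.smul_mem _ _ h3) ((algSys W).one Y)
    (by rw [mul_one, map_smul, smul_eq_mul, inv_mul_cancel₀ h2])
  rw [← h1]
  exact (dist_le hX.1 t hu').trans h4

end Pool.Agent.Q55.Lr
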