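import Pool.Agent.Q55.Lr.Kun

/-!
# Operators which are orthogonal to the operators of a system
-/

open CategoryTheory AlgebraicGeometry

set_option linter.unusedSectionVars false

universe u v

namespace Pool.Agent.Q55.Lr

open Module
open Pool.Agent.H914 Pool.Agent.H914.VarClass Pool.Agent.H914.VarClass.Obj
  Pool.Agent.H914.WeilCohomology Pool.Agent.Y133.Half

variable {k : Type u} [Field k] {𝒱 : VarClass k} {ops : CycleOps 𝒱}
  {W : WeilCohomology.{u, v} ops} {X Y Z P Q : 𝒱.Obj}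

/-- The even classes orthogonal to the classes of the system. -/
def Ort (S : Sys W) (Z : 𝒱.Obj) : Submodule W.K (W.H Z) where
  carrier := {c | c ∈ PH W Z 0 ∧ ∀ d ∈ S.C Z, W.tr Z (c * d) = 0}
  zero_mem' := ⟨Submodule.zero_mem _, fun d _ => by rw [zero_mul, map_zero]⟩
  add_mem' := fun {a b} ha hb => ⟨Submodule.add_mem _ ha.1 hb.1, fun d hd => by
    rw [add_mul, map_add, ha.2 d hd, hb.2 d hd, add_zero]⟩
  smul_mem' := fun r a ha => ⟨Submodule.smul_mem _ _ ha.1, fun d hd => by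
    rw [smul_mul_assoc, map_smul, ha.2 d hd, smul_zero]⟩

variable {S : Sys W}

lemma Ort.mul {c d : W.H Z} (hc : c ∈ Ort S Z) (hd : d ∈ S.C Z) : c * d ∈ Ort S Z :=
  ⟨by simpa using PH.mul hc.1 (S.even hd), fun e he => by
    rw [mul_assoc]; exact hc.2 _ (S.mul hd he)⟩

lemma Ort.mul' {c d : W.H Z} (hc : c ∈ S.C Z) (hd : d ∈ Ort S Z) : c * d ∈ Ort S Z := by
  rw [PH.even_comm (S.even hc)]; exact Ort.mul hd hc

lemma Ort.map (f : X ⟶ Y) {c : W.H Y} (hc : c ∈ Ort S Y) : W.map f c ∈ Ort S X :=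
  ⟨PH.map f hc.1, fun d hd => by
    rw [PH.even_comm (PH.map f hc.1), ← W.tr_push, PH.even_comm (S.even (S.push f hd))]
    exact hc.2 _ (S.push f hd)⟩

/-- The operators given by the orthogonal classes. -/
noncomputable def OOp (S : Sys W) (X Y : 𝒱.Obj) : Submodule W.K (W.H X →ₗ[W.K] W.H Y) :=
  (Ort S (X.prod Y)).map (corrL W X Y)

lemma mem_OOp {u : W.H X →ₗ[W.K] W.H Y} : u ∈ OOp S X Y ↔ ∃ c ∈ Ort S (X.prod Y), W.corr c = u :=
  Submodule.mem_map

lemma OOp.corr {c : W.H (X.prod Y)} (hc : c ∈ Ort S (X.prod Y)) : W.corr c ∈ OOp S X Y :=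
  mem_OOp.2 ⟨c, hc, rfl⟩

lemma OOp.ev {u : W.H X →ₗ[W.K] W.H Y} (hu : u ∈ OOp S X Y) : Ev W u := by
  obtain ⟨c, hc, rfl⟩ := mem_OOp.1 hu
  exact Ev.corr hc.1

lemma OOp.trace {u : W.H Y →ₗ[W.K] W.H X} {w : W.H X →ₗ[W.K] W.H Y} (hu : u ∈ OOp S Y X)
    (hw : w ∈ S.Op X Y) :
    LinearMap.trace W.K (W.H X) (par (W.isInternal X) ∘ₗ u ∘ₗ w) = 0 := by
  obtain ⟨d, hd, rfl⟩ := mem_OOp.1 hu
  obtain ⟨c, hc, rfl⟩ := Sys.mem_Op.1 hw
  rw [trace_corr_corr]
  exact hd.2 _ (S.map _ hc)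

lemma OOp.ext_left {x : Module.End W.K (W.H P)} (hx : x ∈ OOp S P P) :
    extOp W x (1 : Module.End W.K (W.H Q)) ∈ OOp S (P.prod Q) (P.prod Q) := by
  obtain ⟨c, hc, rfl⟩ := mem_OOp.1 hx
  have h : (1 : Module.End W.K (W.H Q)) = W.corr (W.push (diag Q) (1 : W.H Q)) :=
    Sys.corr_diag_one.symm
  rw [h, ← Sys.corr_ext_class c (S.even Sys.diag_mem)]
  exact OOp.corr (Ort.mul (Ort.map _ hc) (S.map _ Sys.diag_mem))

lemma OOp.ext_right {x : Module.End W.K (W.H Q)} (hx : x ∈ OOp S Q Q) :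
    extOp W (1 : Module.End W.K (W.H P)) x ∈ OOp S (P.prod Q) (P.prod Q) := by
  obtain ⟨c, hc, rfl⟩ := mem_OOp.1 hx
  have h : (1 : Module.End W.K (W.H P)) = W.corr (W.push (diag P) (1 : W.H P)) :=
    Sys.corr_diag_one.symm
  rw [h, ← Sys.corr_ext_class _ hc.1]
  exact OOp.corr (Ort.mul' (S.map _ Sys.diag_mem) (Ort.map _ hc))

/-- The decomposition into even and odd classes. -/
lemma exists_even_part (x : W.H Z) : ∃ a ∈ PH W Z 0, ∃ b ∈ PH W Z 1, x = a + b := by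
  have hx : x ∈ ⨆ i, W.gr Z i := by
    rw [(W.isInternal Z).submodule_iSup_eq_top]; exact Submodule.mem_top
  refine Submodule.iSup_induction _ (motive := fun x => ∃ a ∈ PH W Z 0, ∃ b ∈ PH W Z 1, x = a + b)
    hx ?_ ?_ ?_
  · intro i x hx
    rcases Nat.mod_two_eq_zero_or_one i with h | h
    · exact ⟨x, PH.of' (by omega) hx, 0, Submodule.zero_mem _, (add_zero x).symm⟩
    · exact ⟨0, Submodule.zero_mem _, x, PH.of' (by omega) hx, (zero_add x).symm⟩
  · exact ⟨0, Submodule.zero_mem _, 0, Submodule.zero_mem _, (add_zero _).symm⟩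
  · rintro x y ⟨a, ha, b, hb, rfl⟩ ⟨a', ha', b', hb', rfl⟩
    exact ⟨a + a', Submodule.add_mem _ ha ha', b + b', Submodule.add_mem _ hb hb', by abel⟩

/-- The double orthogonal. -/
lemma mem_of_ort {c : W.H Z} (hc : c ∈ PH W Z 0) (h : ∀ d ∈ Ort S Z, W.tr Z (c * d) = 0) :
    c ∈ S.C Z := by
  by_contra hcon
  obtain ⟨φ, hφ, hφ'⟩ : ∃ φ : Dual W.K (W.H Z), φ c ≠ 0 ∧ ∀ d ∈ S.C Z, φ d = 0 := by
    obtain ⟨φ, h1, h2⟩ := Submodule.exists_le_ker_of_notMem hcon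
    exact ⟨φ, h1, fun d hd => h2 hd⟩
  obtain ⟨y, hy⟩ := exists_dual_class W φ
  obtain ⟨a, ha, b, hb, rfl⟩ := exists_even_part y
  have h0 : ∀ x ∈ PH W Z 0, W.tr Z (x * (a + b)) = W.tr Z (x * a) := by
    intro x hx
    have h1 : W.tr Z (x * b) = 0 := PH.tr_odd (PH.mul hx hb) rfl
    rw [mul_add, map_add, h1, add_zero]
  apply hφ
  rw [← hy, h0 c hc]
  apply h
  refine ⟨ha, fun d hd => ?_⟩
  rw [PH.even_comm ha, ← h0 d (S.even hd), hy]
  exact hφ' d hd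

lemma PH.disj {a : ℕ} {x : W.H X} (h0 : x ∈ PH W X a) (h1 : x ∈ PH W X (a + 1)) : x = 0 := by
  have h2 := PH.par h0
  rw [PH.par h1, pow_succ, mul_neg_one, neg_smul] at h2
  have h3 : ((-1 : W.K) ^ a) • x = 0 := by
    have h4 : (2 : W.K) • (((-1 : W.K) ^ a) • x) = 0 := by
      rw [two_smul]; nth_rewrite 1 [← h2]; exact neg_add_cancel _
    exact (smul_eq_zero.1 h4).resolve_left two_ne_zero
  exact (smul_eq_zero.1 h3).resolve_left (pow_ne_zero _ (neg_ne_zero.2 one_ne_zero))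

lemma corr_odd {c : W.H (X.prod Y)} (hc : c ∈ PH W (X.prod Y) 1) {b : ℕ} {x : W.H X}
    (hx : x ∈ PH W X b) : W.corr c x ∈ PH W Y (b + 1) := by
  rw [corr_apply, add_comm]
  exact PH.push _ (PH.mul hc (PH.map (fst X Y) hx))

/-- The operators which preserve the parity are given by even classes. -/
lemma exists_even_corr {u : W.H X →ₗ[W.K] W.H Y} (hu : Ev W u) :
    ∃ c ∈ PH W (X.prod Y) 0, W.corr c = u := by
  obtain ⟨τ, hτ⟩ := Pool.Agent.H447.exists_corr u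
  obtain ⟨a, ha, b, hb, rfl⟩ := exists_even_part τ
  refine ⟨a, ha, ?_⟩
  rw [← hτ, corr_add]
  have h1 : W.corr b = 0 := by
    have hb' : W.corr b = u - W.corr a := by rw [← hτ, corr_add]; abel
    apply gr_ext (W.isInternal X)
    intro i x hx
    have hx' := PH.of (W := W) hx
    refine PH.disj (a := i) ?_ (corr_odd hb hx')
    rw [hb', LinearMap.sub_apply]
    exact Submodule.sub_mem _ (hu i x hx') (Ev.corr ha i x hx')
  rw [h1, add_zero]

/-- An operator which is orthogonal to the orthogonal operators is an operator of the system. -/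
lemma op_of_trace {u : W.H X →ₗ[W.K] W.H Y} (hu : Ev W u)
    (h : ∀ c ∈ OOp S Y X, LinearMap.trace W.K (W.H X)
      (par (W.isInternal X) ∘ₗ c ∘ₗ u) = 0) : u ∈ S.Op X Y := by
  obtain ⟨c, hc, rfl⟩ := exists_even_corr hu
  have h1 : W.map (swap Y X) c ∈ S.C (Y.prod X) := by
    apply mem_of_ort (PH.map _ hc)
    intro d hd
    have h2 := h _ (OOp.corr hd)
    rw [trace_corr_corr, PH.even_comm hd.1] at h2
    exact h2
  have h2 := S.map (swap X Y) h1
  rw [swap_swap] at h2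
  exact Sys.Op.corr h2

end Pool.Agent.Q55.Lr
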