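import Pool.Agent.Q55.Lr.Ten
import Pool.Agent.H578R3.SgnCyc

/-!
# An operator of the algebra spanned by the permutations and the sign operator
-/

open CategoryTheory AlgebraicGeometry

set_option linter.unusedSectionVars false

universe u v

namespace Pool.Agent.Q55.Lr

open Module
open Pool.Agent.H914 Pool.Agent.H914.VarClass Pool.Agent.H914.VarClass.Obj
  Pool.Agent.H914.WeilCohomology Pool.Agent.Y133.Half Pool.Agent.H447

section Lin

variable {K V : Type*} [Field K] [CharZero K] [AddCommGroup V] [Module K V] [FiniteDimensional K V]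

/-- The trace of a diagonal operator with natural eigenvalues on the image of an idempotent with
which it commutes. -/
lemma nat_trace {κ : Type*} [Fintype κ] [DecidableEq κ] (b : Basis κ K V) (m : κ → ℕ)
    {D e : Module.End K V} (hD : ∀ w, D (b w) = (m w : K) • b w) (he : e * e = e)
    (hc : e * D = D * e) : ∃ r : ℕ, LinearMap.trace K V (e * D) = r := by
  set Q : ℕ → Module.End K V := fun j => b.constr K fun w => if m w = j then b w else 0 with hQdef
  have hQ : ∀ j w, Q j (b w) = if m w = j then b w else 0 := fun j w => Basis.constr_basis _ _ _ _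
  have hrepr : ∀ y w, b.repr (D y) w = m w * b.repr y w := by
    intro y w
    conv_lhs => rw [← b.sum_repr y]
    rw [map_sum, map_sum, Finsupp.finsetSum_apply, Finset.sum_eq_single w]
    · rw [map_smul, hD, map_smul, map_smul, Basis.repr_self, Finsupp.smul_apply,
        Finsupp.smul_apply, Finsupp.single_eq_same, smul_eq_mul, smul_eq_mul]
      ring
    · intro w' _ hw'
      rw [map_smul, hD, map_smul, map_smul, Basis.repr_self, Finsupp.smul_apply,
        Finsupp.smul_apply, Finsupp.single_eq_of_ne hw'.symm, smul_zero, smul_zero]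
    · intro h; exact absurd (Finset.mem_univ _) h
  have hsupp : ∀ w w', b.repr (e (b w)) w' ≠ 0 → m w' = m w := by
    intro w w' h
    have h1 : D (e (b w)) = (m w : K) • e (b w) := by
      have := congrArg (fun f : Module.End K V => f (b w)) hc
      simp only [Module.End.mul_apply] at this
      rw [← this, hD, map_smul]
    have h2 := hrepr (e (b w)) w'
    rw [h1, map_smul, Finsupp.smul_apply, smul_eq_mul] at h2
    exact_mod_cast (mul_right_cancel₀ h h2).symm
  have hQy : ∀ j y, (∀ w', b.repr y w' ≠ 0 → m w' = j) → Q j y = y := by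
    intro j y hy
    conv_lhs => rw [← b.sum_repr y]
    rw [map_sum]
    conv_rhs => rw [← b.sum_repr y]
    refine Finset.sum_congr rfl fun w' _ => ?_
    rw [map_smul, hQ]
    by_cases h : b.repr y w' = 0
    · rw [h, zero_smul, zero_smul]
    · rw [if_pos (hy w' h)]
  have hQy0 : ∀ j y, (∀ w', b.repr y w' ≠ 0 → m w' ≠ j) → Q j y = 0 := by
    intro j y hy
    conv_lhs => rw [← b.sum_repr y]
    rw [map_sum]
    refine Finset.sum_eq_zero fun w' _ => ?_
    rw [map_smul, hQ]
    by_cases h : b.repr y w' = 0
    · rw [h, zero_smul]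
    · rw [if_neg (hy w' h), smul_zero]
  have hcomm : ∀ j, e * Q j = Q j * e := by
    intro j
    apply b.ext
    intro w
    rw [Module.End.mul_apply, Module.End.mul_apply, hQ]
    by_cases h : m w = j
    · rw [if_pos h, hQy j _ fun w' hw' => (hsupp w w' hw').trans h]
    · rw [if_neg h, map_zero, hQy0 j _ fun w' hw' => by rw [hsupp w w' hw']; exact h]
  have hQQ : ∀ j, Q j * Q j = Q j := by
    intro j
    apply b.ext
    intro w
    rw [Module.End.mul_apply, hQ]
    by_cases h : m w = j
    · rw [if_pos h, hQ, if_pos h]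
    · rw [if_neg h, map_zero]
  have hDQ : D = ∑ j ∈ Finset.range (∑ w, m w + 1), (j : K) • Q j := by
    apply b.ext
    intro w
    rw [hD, LinearMap.sum_apply, Finset.sum_eq_single (m w)]
    · rw [LinearMap.smul_apply, hQ, if_pos rfl]
    · intro j _ hj
      rw [LinearMap.smul_apply, hQ, if_neg (Ne.symm hj), smul_zero]
    · intro h
      exfalso
      apply h
      rw [Finset.mem_range]
      have := Finset.single_le_sum (f := m) (fun i _ => Nat.zero_le _) (Finset.mem_univ w)
      omega
  refine ⟨∑ j ∈ Finset.range (∑ w, m w + 1), j * finrank K (LinearMap.range (e * Q j)), ?_⟩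
  rw [hDQ, Finset.mul_sum, map_sum]
  push_cast
  refine Finset.sum_congr rfl fun j _ => ?_
  rw [mul_smul_comm, map_smul, smul_eq_mul]
  congr 1
  apply Pool.Agent.Y133.Half.trace_idem
  calc e * Q j * (e * Q j) = e * (Q j * e) * Q j := by simp only [mul_assoc]
    _ = (e * e) * (Q j * Q j) := by rw [← hcomm]; simp only [mul_assoc]
    _ = e * Q j := by rw [he, hQQ]

/-- Every functional on the operators is given by a trace. -/
lemma exists_dual_op (φ : Module.End K V →ₗ[K] K) :
    ∃ A : Module.End K V, ∀ c, LinearMap.trace K V (A * c) = φ c := by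
  let F : Module.End K V →ₗ[K] Dual K (Module.End K V) :=
    LinearMap.mk₂ K (fun A c => LinearMap.trace K V (A * c))
      (fun A B c => by rw [add_mul, map_add]) (fun r A c => by rw [smul_mul_assoc, map_smul])
      (fun A c d => by rw [mul_add, map_add]) (fun r A c => by rw [mul_smul_comm, map_smul])
  have hinj : Function.Injective F := by
    rw [← LinearMap.ker_eq_bot, LinearMap.ker_eq_bot']
    intro A hA
    apply LinearMap.ext
    intro v
    rw [LinearMap.zero_apply]
    refine (Module.forall_dual_apply_eq_zero_iff K _).1 fun f => ?_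
    have h1 : LinearMap.trace K V (A * f.smulRight v) = 0 :=
      congrArg (fun g : Dual K (Module.End K V) => g (f.smulRight v)) hA
    rw [LinearMap.trace_mul_comm] at h1
    have h4 : (f.smulRight v) * A = (f ∘ₗ A).smulRight v := rfl
    rw [h4, LinearMap.trace_smulRight] at h1
    exact h1
  obtain ⟨A, hA⟩ := (LinearMap.injective_iff_surjective_of_finrank_eq_finrank
    (Subspace.dual_finrank_eq (K := K) (V := Module.End K V)).symm).1 hinj φ
  exact ⟨A, fun c => congrArg (fun g : Dual K (Module.End K V) => g c) hA⟩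

end Lin

variable {k : Type u} [Field k] {𝒱 : VarClass k} {ops : CycleOps 𝒱}
  {W : WeilCohomology.{u, v} ops} {X Y Z P Q : 𝒱.Obj}

lemma evenProj_apply_even {b : ℕ} (hb : b % 2 = 0) {x : W.H X} (hx : x ∈ PH W X b) :
    evenProj (W.isInternal X) x = x := by
  refine PH.ind (p := fun x => evenProj (W.isInternal X) x = x) ?_ ?_ ?_ hx
  · intro i hi x hx
    rw [evenProj, scal_apply _ _ hx, if_pos (Nat.even_iff.2 (by omega)), one_smul]
  · rw [map_zero]
  · intro x y hx hy; rw [map_add, hx, hy]

lemma evenProj_apply_odd {b : ℕ} (hb : b % 2 = 1) {x : W.H X} (hx : x ∈ PH W X b) :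
    evenProj (W.isInternal X) x = 0 := by
  refine PH.ind (p := fun x => evenProj (W.isInternal X) x = 0) ?_ ?_ ?_ hx
  · intro i hi x hx
    rw [evenProj, scal_apply _ _ hx, if_neg (by rw [Nat.even_iff]; omega), zero_smul]
  · rw [map_zero]
  · intro x y hx hy; rw [map_add, hx, hy, add_zero]

lemma ev_evenProj : Ev W (evenProj (W.isInternal X)) := by
  intro b x hx
  rcases Nat.mod_two_eq_zero_or_one b with h | h
  · rw [evenProj_apply_even h hx]; exact hx
  · rw [evenProj_apply_odd h hx]; exact Submodule.zero_mem _

lemma ev_sub {u w : W.H X →ₗ[W.K] W.H Y} (hu : Ev W u) (hw : Ev W w) : Ev W (u - w) :=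
  fun b x hx => Submodule.sub_mem _ (hu b x hx) (hw b x hx)

lemma ev_add {u w : W.H X →ₗ[W.K] W.H Y} (hu : Ev W u) (hw : Ev W w) : Ev W (u + w) :=
  fun b x hx => Submodule.add_mem _ (hu b x hx) (hw b x hx)

lemma ev_smul (r : W.K) {u : W.H X →ₗ[W.K] W.H Y} (hu : Ev W u) : Ev W (r • u) :=
  fun b x hx => Submodule.smul_mem _ _ (hu b x hx)

lemma ev_par : Ev W (par (W.isInternal X)) := by
  intro b x hx
  rw [PH.par hx]
  exact Submodule.smul_mem _ _ hx

/-- A class is even if it is fixed by the projection. -/
lemma evenProj_mem (x : W.H X) : evenProj (W.isInternal X) x ∈ PH W X 0 := by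
  obtain ⟨a, ha, b, hb, rfl⟩ := exists_even_part x
  rw [map_add, evenProj_apply_even rfl ha, evenProj_apply_odd rfl hb, add_zero]
  exact ha

lemma sub_evenProj_mem (x : W.H X) : x - evenProj (W.isInternal X) x ∈ PH W X 1 := by
  obtain ⟨a, ha, b, hb, rfl⟩ := exists_even_part x
  rw [map_add, evenProj_apply_even rfl ha, evenProj_apply_odd rfl hb, add_zero, add_sub_cancel_left]
  exact hb

/-- The trace of an operator which changes the parity vanishes. -/
lemma trace_odd {T : Module.End W.K (W.H X)}
    (hT : par (W.isInternal X) * T * par (W.isInternal X) = -T) :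
    LinearMap.trace W.K _ T = 0 := by
  have h1 : LinearMap.trace W.K _ (par (W.isInternal X) * T * par (W.isInternal X)) =
      LinearMap.trace W.K _ T := by
    rw [LinearMap.trace_mul_comm, ← mul_assoc, H914.par_mul_par, one_mul]
  rw [hT, map_neg] at h1
  have h2 : (2 : W.K) * LinearMap.trace W.K _ T = 0 := by
    rw [two_mul]; nth_rewrite 1 [← h1]; exact neg_add_cancel _
  exact (mul_eq_zero.1 h2).resolve_left two_ne_zero

/-- An operator which commutes with the parity operator is even. -/
lemma ev_of_comm {B : Module.End W.K (W.H X)}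
    (hB : par (W.isInternal X) * B = B * par (W.isInternal X)) : Ev W B := by
  set p := par (W.isInternal X) with hp
  intro b x hx
  have h1 : p (B x) = (-1 : W.K) ^ b • B x := by
    have := congrArg (fun f : Module.End W.K (W.H X) => f x) hB
    simp only [Module.End.mul_apply] at this
    rw [this, hp, PH.par hx, map_smul]
  obtain ⟨a, ha, d, hd, hBx⟩ := exists_even_part (B x)
  have h2 : p (B x) = a - d := by
    rw [hBx, map_add, hp, PH.par ha, PH.par hd, pow_zero, one_smul, pow_one, neg_smul,
      one_smul, sub_eq_add_neg]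
  rcases Nat.mod_two_eq_zero_or_one b with h | h
  · have h3 : (-1 : W.K) ^ b = 1 := (Nat.even_iff.2 h).neg_one_pow
    rw [h2, h3, one_smul, hBx] at h1
    have h4 : (2 : W.K) • d = 0 := by
      have : a + d - (a - d) = 0 := by rw [h1, sub_self]
      rw [two_smul]
      rw [← this]; abel
    have h5 : d = 0 := (smul_eq_zero.1 h4).resolve_left two_ne_zero
    rw [hBx, h5, add_zero]
    exact PH.congr (by omega) ha
  · have h3 : (-1 : W.K) ^ b = -1 := (Nat.odd_iff.2 h).neg_one_pow
    rw [h2, h3, neg_smul, one_smul, hBx] at h1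
    have h4 : (2 : W.K) • a = 0 := by
      have : a - d + (a + d) = 0 := by rw [h1, neg_add_cancel]
      rw [two_smul]
      rw [← this]; abel
    have h5 : a = 0 := (smul_eq_zero.1 h4).resolve_left two_ne_zero
    rw [hBx, h5, zero_add]
    exact PH.congr (by omega) hd

/-- An operator with the parity of the operators and the even part of it. -/
lemma exists_even_dual (φ : Module.End W.K (W.H X) →ₗ[W.K] W.K) :
    ∃ A : Module.End W.K (W.H X), Ev W A ∧ ∀ c, Ev W c → LinearMap.trace W.K _ (A * c) = φ c := by
  obtain ⟨A, hA⟩ := exists_dual_op φ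
  set p := par (W.isInternal X) with hp
  have hpp : p * p = 1 := H914.par_mul_par _
  refine ⟨(2 : W.K)⁻¹ • (A + p * A * p), ?_, ?_⟩
  · apply ev_of_comm
    rw [mul_smul_comm, smul_mul_assoc, mul_add, add_mul]
    congr 1
    have e1 : p * (p * A * p) = A * p := by
      rw [mul_assoc p A p, ← mul_assoc p p, hpp, one_mul]
    have e2 : p * A * p * p = p * A := by rw [mul_assoc, hpp, mul_one]
    rw [e1, e2, add_comm]
  · intro c hc
    have hcp : p * c = c * p := hc.par_comm
    rw [smul_mul_assoc, map_smul, add_mul, map_add, hA]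
    have h1 : LinearMap.trace W.K _ (p * A * p * c) = φ c := by
      have e3 : p * A * p * c = p * (A * c) * p := by
        rw [mul_assoc (p * A), hcp, ← mul_assoc, mul_assoc p A]
      rw [← hA, e3, LinearMap.trace_mul_comm, ← mul_assoc, hpp, one_mul]
    rw [h1, smul_eq_mul, ← two_mul, ← mul_assoc, inv_mul_cancel₀ two_ne_zero, one_mul]

/-- An even operator which commutes with all even operators. -/
lemma scalar_of_comm {A : Module.End W.K (W.H X)} (h : ∀ c, Ev W c → A * c = c * A) :
    ∃ a b : W.K, A = a • evenProj (W.isInternal X) + b • (1 - evenProj (W.isInternal X)) := by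
  set pr := evenProj (W.isInternal X) with hpr
  have h0 : ∃ a : W.K, ∀ v ∈ PH W X 0, A v = a • v := by
    by_cases hx : ∃ x ∈ PH W X 0, x ≠ 0
    · obtain ⟨x, hx, hx0⟩ := hx
      obtain ⟨f, hf⟩ := Module.Projective.exists_dual_ne_zero W.K hx0
      refine ⟨(f x)⁻¹ * f (pr (A x)), fun v hv => ?_⟩
      have hev : Ev W ((f ∘ₗ pr).smulRight v) := by
        intro b y hy
        rw [LinearMap.smulRight_apply, LinearMap.comp_apply]
        rcases Nat.mod_two_eq_zero_or_one b with hb | hb
        · exact Submodule.smul_mem _ _ (PH.congr (by omega) hv)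
        · rw [hpr, evenProj_apply_odd hb hy, map_zero, zero_smul]
          exact Submodule.zero_mem _
      have h1 := congrArg (fun g : Module.End W.K (W.H X) => g x) (h _ hev)
      simp only [Module.End.mul_apply] at h1
      rw [LinearMap.smulRight_apply, LinearMap.smulRight_apply, LinearMap.comp_apply,
        LinearMap.comp_apply, map_smul] at h1
      have h2 : pr x = x := evenProj_apply_even rfl hx
      rw [h2] at h1
      rw [mul_smul, ← h1, smul_smul, inv_mul_cancel₀ hf, one_smul]
    · push Not at hx
      exact ⟨0, fun v hv => by rw [hx v hv, map_zero, smul_zero]⟩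
  have h1 : ∃ a : W.K, ∀ v ∈ PH W X 1, A v = a • v := by
    by_cases hx : ∃ x ∈ PH W X 1, x ≠ 0
    · obtain ⟨x, hx, hx0⟩ := hx
      obtain ⟨f, hf⟩ := Module.Projective.exists_dual_ne_zero W.K hx0
      refine ⟨(f x)⁻¹ * f ((1 - pr) (A x)), fun v hv => ?_⟩
      have hev : Ev W ((f ∘ₗ (1 - pr)).smulRight v) := by
        intro b y hy
        rw [LinearMap.smulRight_apply, LinearMap.comp_apply, LinearMap.sub_apply,
          Module.End.one_apply]
        rcases Nat.mod_two_eq_zero_or_one b with hb | hb
        · rw [hpr, evenProj_apply_even hb hy, sub_self, map_zero, zero_smul]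
          exact Submodule.zero_mem _
        · exact Submodule.smul_mem _ _ (PH.congr (by omega) hv)
      have h1 := congrArg (fun g : Module.End W.K (W.H X) => g x) (h _ hev)
      simp only [Module.End.mul_apply] at h1
      rw [LinearMap.smulRight_apply, LinearMap.smulRight_apply, LinearMap.comp_apply,
        LinearMap.comp_apply, map_smul] at h1
      have h2 : (1 - pr) x = x := by
        rw [LinearMap.sub_apply, Module.End.one_apply, hpr, evenProj_apply_odd rfl hx, sub_zero]
      rw [h2] at h1
      rw [mul_smul, ← h1, smul_smul, inv_mul_cancel₀ hf, one_smul]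
    · push Not at hx
      exact ⟨0, fun v hv => by rw [hx v hv, map_zero, smul_zero]⟩
  obtain ⟨a, ha⟩ := h0
  obtain ⟨b, hb⟩ := h1
  refine ⟨a, b, LinearMap.ext fun x => ?_⟩
  have hx : x = pr x + (x - pr x) := by abel
  conv_lhs => rw [hx]
  rw [map_add, ha _ (evenProj_mem x), hb _ (sub_evenProj_mem x)]
  rfl

lemma ev_mul {u w : Module.End W.K (W.H X)} (hu : Ev W u) (hw : Ev W w) : Ev W (u * w) :=
  Ev.comp hu hw

/-- The functional `c ↦ tr (e (sum of the actions of c))`. -/
noncomputable def totL (n : ℕ) (e : Module.End W.K (W.H (pw X n))) :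
    Module.End W.K (W.H X) →ₗ[W.K] W.K where
  toFun c := LinearMap.trace W.K _ (e * tot c n)
  map_add' c d := by rw [tot_add, mul_add, map_add]
  map_smul' r c := by rw [tot_smul, mul_smul_comm, map_smul]; rfl

lemma rep_comm {n : ℕ} {e T : Module.End W.K (W.H (pw X n))} (he : e ∈ repAlg (rho W X n))
    (hT : ∀ σ, rho W X n σ * T = T * rho W X n σ) : e * T = T * e := by
  have h1 := repAlg_le _ (show e ∈ Subalgebra.toSubmodule (repAlg (rho W X n)) from he)
  clear he
  induction h1 using Submodule.span_induction with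
  | mem x hx =>
    obtain ⟨σ, rfl⟩ := hx
    exact hT σ
  | zero => rw [zero_mul, mul_zero]
  | add x y _ _ hx hy => rw [add_mul, mul_add, hx, hy]
  | smul r x _ hx => rw [smul_mul_assoc, mul_smul_comm, hx]

/-- The trace of an idempotent and of the number of factors of a parity. -/
lemma nat_tot {n : ℕ} {e : Module.End W.K (W.H (pw X n))} (he : e ∈ repAlg (rho W X n))
    (hee : e * e = e) {c : Module.End W.K (W.H X)} {q : ℕ → ℕ} (hc : Ev W c)
    (hq : ∀ b, ∀ x ∈ PH W X b, c x = (q b : W.K) • x) :
    ∃ r : ℕ, LinearMap.trace W.K _ (e * tot c n) = r := by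
  obtain ⟨f, hf⟩ := exists_hbasis W X
  choose a ha using hf
  apply nat_trace (wb f n) (fun w => ∑ i, q (a (w i))) (D := tot c n)
  · intro w
    rw [wb_ten, tot, LinearMap.sum_apply]
    push_cast
    rw [Finset.sum_smul]
    refine Finset.sum_congr rfl fun i _ => ?_
    rw [atk_ten, hq _ _ (ha _)]
    have h1 : atk ((q (a (w i)) : W.K) • (1 : Module.End W.K (W.H X))) n i
        (ten W X n fun i => f (w i)) = (q (a (w i)) : W.K) • ten W X n fun i => f (w i) := by
      rw [atk_smul, atk_one]; rfl
    rw [← h1, atk_ten]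
    rfl
  · exact hee
  · exact rep_comm he fun σ => rho_tot hc n σ

/-- An even operator which is orthogonal to all even operators vanishes. -/
lemma ev_zero_of_trace {T : Module.End W.K (W.H X)} (hT : Ev W T)
    (h : ∀ d, Ev W d → LinearMap.trace W.K _ (T * d) = 0) : T = 0 := by
  set p := par (W.isInternal X) with hp
  have hpp : p * p = 1 := H914.par_mul_par _
  have hTp : p * T = T * p := hT.par_comm
  have hall : ∀ d : Module.End W.K (W.H X), LinearMap.trace W.K _ (T * d) = 0 := by
    intro d
    have e1 : p * (p * d * p) = d * p := by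
      rw [mul_assoc p d p, ← mul_assoc p p, hpp, one_mul]
    have e2 : p * d * p * p = p * d := by rw [mul_assoc, hpp, mul_one]
    have h1 : Ev W (d + p * d * p) := by
      apply ev_of_comm
      rw [mul_add, add_mul, e1, e2, add_comm]
    have h2 : LinearMap.trace W.K _ (T * (d - p * d * p)) = 0 := by
      apply trace_odd
      have e3 : p * (d - p * d * p) * p = -(d - p * d * p) := by
        rw [mul_sub, sub_mul, e1, mul_assoc d p p, hpp, mul_one]
        abel
      calc p * (T * (d - p * d * p)) * p = (p * T) * (d - p * d * p) * p := by rw [← mul_assoc]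
        _ = T * (p * (d - p * d * p) * p) := by rw [hTp]; simp only [mul_assoc]
        _ = _ := by
          rw [e3]
          apply LinearMap.ext
          intro x
          exact map_neg T _
    have h3 := h _ h1
    have h4 : (2 : W.K) * LinearMap.trace W.K _ (T * d) = 0 := by
      have e4 : T * (d + p * d * p) + T * (d - p * d * p) = T * d + T * d := by
        rw [← mul_add, ← mul_add]; congr 1; abel
      have e5 := congrArg (LinearMap.trace W.K (W.H X)) e4
      rw [map_add, h3, h2, map_add, add_zero, ← two_mul] at e5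
      exact e5.symm
    exact (mul_eq_zero.1 h4).resolve_left two_ne_zero
  apply LinearMap.ext
  intro v
  rw [LinearMap.zero_apply]
  refine (Module.forall_dual_apply_eq_zero_iff W.K _).1 fun f => ?_
  have h1 := hall (f.smulRight v)
  rw [LinearMap.trace_mul_comm] at h1
  have h4 : (f.smulRight v) * T = (f ∘ₗ T).smulRight v := rfl
  rw [h4, LinearMap.trace_smulRight] at h1
  exact h1

/-- **The sign operator from an idempotent of the algebra spanned by the permutations.** -/
theorem par_of_idem {S : Sys W} {n : ℕ} {e : Module.End W.K (W.H (pw X n))}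
    (he : e ∈ repAlg (rho W X n)) (hee : e * e = e) (he0 : e ≠ 0)
    (hpe : par (W.isInternal (pw X n)) * e ∈ S.Op (pw X n) (pw X n)) :
    par (W.isInternal X) ∈ S.Op X X := by
  set p := par (W.isInternal X) with hp
  have hpp : p * p = 1 := H914.par_mul_par _
  set pr := evenProj (W.isInternal X) with hpr
  have hprr : pr * pr = pr := Pool.Agent.H578R3.Sgn.evenProj_idem _
  have hppr : p * pr = pr := par_evenProj _
  have hppr' : p * (1 - pr) = pr - 1 := by
    have h1 : p * (1 - pr) = (-1 : W.K) • (1 - pr) := par_one_sub_evenProj _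
    rw [h1]
    apply LinearMap.ext
    intro x
    change (-1 : W.K) • (x - pr x) = pr x - x
    rw [neg_smul, one_smul, neg_sub]
  set φ := totL n e with hφ
  have hcomm : ∀ c d : Module.End W.K (W.H X), Ev W c → Ev W d → φ (c * d - d * c) = 0 := by
    intro c d hc hd
    change LinearMap.trace W.K _ (e * tot (c * d - d * c) n) = 0
    have h1 : e * tot c n = tot c n * e := rep_comm he fun σ => rho_tot hc n σ
    rw [← tot_comm, mul_sub, map_sub, sub_eq_zero, ← mul_assoc, h1, mul_assoc,
      LinearMap.trace_mul_comm, mul_assoc]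
  obtain ⟨A, hA, hAφ⟩ := exists_even_dual φ
  have hAc : ∀ c, Ev W c → A * c = c * A := by
    intro c hc
    rw [← sub_eq_zero]
    apply ev_zero_of_trace (ev_sub (ev_mul hA hc) (ev_mul hc hA))
    intro d hd
    have e1 : LinearMap.trace W.K _ (A * c * d) = φ (c * d) := by
      rw [mul_assoc, hAφ _ (ev_mul hc hd)]
    have e2 : LinearMap.trace W.K _ (c * A * d) = φ (d * c) := by
      rw [mul_assoc, LinearMap.trace_mul_comm, mul_assoc, hAφ _ (ev_mul hd hc)]
    rw [sub_mul, map_sub, e1, e2, ← map_sub, hcomm c d hc hd]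
  obtain ⟨a, b, hab⟩ := scalar_of_comm hAc
  -- the operator is orthogonal to the orthogonal operators
  have hort : ∀ c ∈ OOp S X X, LinearMap.trace W.K _ (A * c) = 0 := by
    intro c hc
    rw [hAφ c (OOp.ev hc)]
    change LinearMap.trace W.K _ (e * tot c n) = 0
    have h1 := OOp.trace (tot_oop hc n) hpe
    have h2 : par (W.isInternal (pw X n)) * tot c n = tot c n * par (W.isInternal (pw X n)) :=
      (OOp.ev (tot_oop hc n)).par_comm
    have h3 : par (W.isInternal (pw X n)) ∘ₗ tot c n ∘ₗ (par (W.isInternal (pw X n)) * e) =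
        tot c n * e := by
      change par (W.isInternal (pw X n)) * (tot c n * (par (W.isInternal (pw X n)) * e)) = _
      rw [← mul_assoc, h2, mul_assoc, ← mul_assoc (par _) (par _), H914.par_mul_par, one_mul]
    rw [h3, LinearMap.trace_mul_comm] at h1
    exact h1
  have hpA : p * A ∈ S.Op X X := by
    apply op_of_trace (ev_mul ev_par hA)
    intro c hc
    have h2 : p * c = c * p := (OOp.ev hc).par_comm
    change LinearMap.trace W.K _ (p * (c * (p * A))) = 0
    rw [← mul_assoc, h2, mul_assoc, ← mul_assoc p p, hpp, one_mul, LinearMap.trace_mul_comm]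
    exact hort c hc
  have hone : (1 : Module.End W.K (W.H X)) ∈ S.Op X X := Sys.Op.id
  have hsum : (a + b) • pr ∈ S.Op X X := by
    have h1 : (a + b) • pr = p * A + b • 1 := by
      rw [hab, mul_add, mul_smul_comm, mul_smul_comm, hppr, hppr', smul_sub, add_smul]
      abel
    rw [h1]
    exact Submodule.add_mem _ hpA (Submodule.smul_mem _ _ hone)
  have hppar : p = (2 : W.K) • pr - 1 := by
    have h1 : p = p * pr + p * (1 - pr) := by rw [← mul_add, add_sub_cancel, mul_one]
    rw [h1, hppr, hppr', two_smul]
    abel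
  suffices h : pr ∈ S.Op X X by
    rw [hppar]
    exact Submodule.sub_mem _ (Submodule.smul_mem _ _ h) hone
  by_cases hz : a + b = 0
  swap
  · have := Submodule.smul_mem _ (a + b)⁻¹ hsum
    rwa [smul_smul, inv_mul_cancel₀ hz, one_smul] at this
  -- the numbers
  obtain ⟨r0, hr0⟩ := nat_tot (q := fun b => if b % 2 = 0 then 1 else 0) he hee
    (ev_evenProj (W := W) (X := X)) (by
      intro b x hx
      rcases Nat.mod_two_eq_zero_or_one b with h | h
      · rw [evenProj_apply_even h hx]; simp [h]
      · rw [evenProj_apply_odd h hx]; simp [h])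
  obtain ⟨r1, hr1⟩ := nat_tot (q := fun b => if b % 2 = 0 then 0 else 1) he hee
    (c := 1 - pr) (ev_sub Ev.id (ev_evenProj (W := W) (X := X))) (by
      intro b x hx
      rw [LinearMap.sub_apply, Module.End.one_apply]
      rcases Nat.mod_two_eq_zero_or_one b with h | h
      · rw [hpr, evenProj_apply_even h hx]; simp [h]
      · rw [hpr, evenProj_apply_odd h hx]; simp [h])
  have hApr : A * pr = a • pr := by
    rw [hab, add_mul, smul_mul_assoc, smul_mul_assoc, sub_mul, one_mul, hprr, sub_self, smul_zero,
      add_zero]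
  have hApr' : A * (1 - pr) = b • (1 - pr) := by
    have h1 : pr * (1 - pr) = 0 := by rw [mul_sub, mul_one, hprr, sub_self]
    have h2 : (1 - pr) * (1 - pr) = 1 - pr := by rw [sub_mul, one_mul, h1, sub_zero]
    rw [hab, add_mul, smul_mul_assoc, smul_mul_assoc, h1, h2, smul_zero, zero_add]
  have t0 : a * (finrank W.K (LinearMap.range pr) : W.K) = r0 := by
    have h1 := hAφ pr ev_evenProj
    rw [hApr, map_smul, Pool.Agent.Y133.Half.trace_idem hprr, smul_eq_mul] at h1
    rw [h1]; exact hr0
  have t1 : b * (finrank W.K (LinearMap.range (1 - pr)) : W.K) = r1 := by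
    have h1 := hAφ (1 - pr) (ev_sub Ev.id (ev_evenProj (W := W) (X := X)))
    have h2 : (1 - pr) * (1 - pr) = 1 - pr := by
      rw [sub_mul, one_mul, mul_sub, mul_one, hprr, sub_self, sub_zero]
    rw [hApr', map_smul, Pool.Agent.Y133.Half.trace_idem h2, smul_eq_mul] at h1
    rw [h1]; exact hr1
  have t2 : (r0 : W.K) + r1 = ((n + 1 : ℕ) : W.K) * (finrank W.K (LinearMap.range e) : W.K) := by
    rw [← hr0, ← hr1, ← map_add, ← mul_add, ← tot_add, add_sub_cancel, tot_one, mul_smul_comm,
      mul_one, map_smul, Pool.Agent.Y133.Half.trace_idem hee, smul_eq_mul]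
  have t3 : r0 + r1 = (n + 1) * finrank W.K (LinearMap.range e) := by exact_mod_cast t2
  have t4 : 1 ≤ finrank W.K (LinearMap.range e) := by
    rw [Nat.one_le_iff_ne_zero]
    intro h
    rw [Submodule.finrank_eq_zero] at h
    exact he0 (LinearMap.range_eq_bot.1 h)
  set x := finrank W.K (LinearMap.range pr) with hx
  set y := finrank W.K (LinearMap.range (1 - pr)) with hy
  rcases Nat.eq_zero_or_pos x with hx0 | hx0
  · rw [hx, Submodule.finrank_eq_zero] at hx0
    rw [LinearMap.range_eq_bot.1 hx0]
    exact Submodule.zero_mem _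
  rcases Nat.eq_zero_or_pos y with hy0 | hy0
  · rw [hy, Submodule.finrank_eq_zero] at hy0
    have := LinearMap.range_eq_bot.1 hy0
    rw [sub_eq_zero] at this
    rw [← this]
    exact hone
  exfalso
  have t5 : (r0 : W.K) * y + r1 * x = 0 := by
    rw [← t0, ← t1]
    linear_combination (x : W.K) * y * hz
  have t6 : r0 * y + r1 * x = 0 := by exact_mod_cast t5
  have t7 : r0 = 0 := by
    have : r0 * y = 0 := by omega
    exact (Nat.mul_eq_zero.1 this).resolve_right hy0.ne'
  have t8 : r1 = 0 := by
    have : r1 * x = 0 := by omega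
    exact (Nat.mul_eq_zero.1 this).resolve_right hx0.ne'
  rw [t7, t8] at t3
  have : 0 < (n + 1) * finrank W.K (LinearMap.range e) := Nat.mul_pos (Nat.succ_pos _) t4
  omega

end Pool.Agent.Q55.Lr
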