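import Pool.Agent.Q55.Lr.Defs
import Pool.Agent.H447R3.SpDefs

/-!
# The rank distance of the even Kunneth projector from the algebraic operators: definition
-/

open CategoryTheory AlgebraicGeometry

universe u v

namespace Pool.Agent.Q55.Lr

open Pool.Agent.H914 Pool.Agent.H914.VarClass Pool.Agent.H914.VarClass.Obj
  Pool.Agent.H914.WeilCohomology Pool.Agent.H447

variable {k : Type u} [Field k] {𝒱 : VarClass k} {ops : CycleOps 𝒱}

/-- The rank distance of the even projector `π⁺` of `X` from the algebraic operators: the smallest
rank of an operator `π⁺ - u` with an operator `u` given by a combination of cycle classes of any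
codimensions on `X × X`. -/
noncomputable def evenDist (W : WeilCohomology.{u, v} ops) (X : 𝒱.Obj) : ℕ :=
  rankDist (IsEvenProj (W.gr X)) (IsAlgOp W X)

end Pool.Agent.Q55.Lr
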