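import Pool.Agent.Q55.Lr.Pt
import Pool.Agent.Q55.Lr.SgnDefs
import Pool.Agent.TH133.PW.Ev

/-!
# The rank distance of the even Kunneth projector on powers
-/

open CategoryTheory AlgebraicGeometry Filter Topology

set_option linter.unusedSectionVars false

universe u v

namespace Pool.Agent.Q55.Lr

open Module
open Pool.Agent.H914 Pool.Agent.H914.VarClass Pool.Agent.H914.VarClass.Obj
  Pool.Agent.H914.WeilCohomology Pool.Agent.Y133.Half Pool.Agent.H447 Pool.Agent.Q55.Rate

variable {k : Type u} [Field k] {𝒱 : VarClass k} {ops : CycleOps 𝒱}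
  {W : WeilCohomology.{u, v} ops} {X Y : 𝒱.Obj} {S : Sys W}

section Lin

variable {K M : Type*} [Field K] [CharZero K] [AddCommGroup M] [Module K M]
  [FiniteDimensional K M] {N : ℕ}

/-- An operator of small rank is killed by an idempotent of the algebra of a representation. -/
lemma exists_idem_small (ρ : Equiv.Perm (Fin N) →* Module.End K M) (T : Module.End K M)
    (h : finrank K (LinearMap.range T) * finrank K M <
      finrank K (Submodule.span K (Set.range ρ))) :
    ∃ e ∈ repAlg ρ, e * e = e ∧ e ≠ 0 ∧ e * T = 0 := by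
  let B := Subalgebra.toSubmodule (repAlg ρ)
  have h3 : finrank K (Submodule.span K (Set.range ρ)) ≤ finrank K B := by
    apply Submodule.finrank_mono
    rw [Submodule.span_le]
    rintro _ ⟨σ, rfl⟩
    exact Pool.Agent.Y133.Half.rep_mem ρ σ
  let Ψ : B →ₗ[K] (LinearMap.range T →ₗ[K] M) :=
    { toFun := fun E => (E : Module.End K M) ∘ₗ (LinearMap.range T).subtype
      map_add' := fun E F => rfl
      map_smul' := fun r E => rfl }
  have h4 : LinearMap.ker Ψ ≠ ⊥ := by
    intro hker
    have h5 := LinearMap.finrank_le_finrank_of_injective (LinearMap.ker_eq_bot.1 hker)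
    rw [Module.finrank_linearMap] at h5
    omega
  obtain ⟨E, hE, hE0⟩ := Submodule.exists_mem_ne_zero_of_ne_bot h4
  let J : Ideal (repAlg ρ) :=
    { carrier := {x | (x : Module.End K M) * T = 0}
      zero_mem' := zero_mul _
      add_mem' := fun {a b} ha hb => by
        change ((a : Module.End K M) + b) * T = 0
        rw [add_mul, show (a : Module.End K M) * T = 0 from ha,
          show (b : Module.End K M) * T = 0 from hb, add_zero]
      smul_mem' := fun c x hx => by
        change ((c : Module.End K M) * x) * T = 0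
        rw [mul_assoc, show (x : Module.End K M) * T = 0 from hx, mul_zero] }
  obtain ⟨e, he, hJ⟩ := IsSemisimpleRing.ideal_eq_span_idempotent J
  have hEJ : (⟨E, E.2⟩ : repAlg ρ) ∈ J := by
    change (E : Module.End K M) * T = 0
    apply LinearMap.ext
    intro x
    exact congrArg (fun g : LinearMap.range T →ₗ[K] M => g ⟨T x, x, rfl⟩) (LinearMap.mem_ker.1 hE)
  have heJ : e ∈ J := by rw [hJ]; exact Ideal.mem_span_singleton_self e
  refine ⟨e, e.2, congrArg Subtype.val he, ?_, heJ⟩
  intro h0
  have h0' : e = 0 := Subtype.ext h0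
  rw [hJ, h0', Ideal.span_singleton_eq_bot.2 rfl, Ideal.mem_bot] at hEJ
  exact hE0 (Subtype.ext (congrArg Subtype.val hEJ))

end Lin

/-- **The rank distance of the sign operator on powers.** -/
theorem par_of_close {n : ℕ} {u : Module.End W.K (W.H (pw X n))} (hu : u ∈ S.Op (pw X n) (pw X n))
    (h : (n + 2) ^ (finrank W.K (W.H X) ^ 2) * (finrank W.K (W.H X) ^ (n + 1) *
      finrank W.K (LinearMap.range (par (W.isInternal (pw X n)) - u))) <
        finrank W.K (W.H X) ^ (2 * (n + 1))) : par (W.isInternal X) ∈ S.Op X X := by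
  classical
  obtain ⟨f, hf⟩ := Pool.Agent.Y133.Half.exists_hbasis W X
  have h2 := Pool.Agent.Y133.Half.span_perm (Pool.Agent.Y133.Half.wb f n) (rho W X n)
    (Pool.Agent.Y133.Half.tau_wb f hf n)
  rw [finrank_pw, ← pow_mul, Fintype.card_fin] at h2
  obtain ⟨e, he, hee, he0, heT⟩ := exists_idem_small (rho W X n)
    (par (W.isInternal (pw X n)) - u) (by
      rw [finrank_pw]
      by_contra hcon
      push Not at hcon
      have h6 : finrank W.K (W.H X) ^ (2 * (n + 1)) ≤
          (finrank W.K (LinearMap.range (par (W.isInternal (pw X n)) - u)) *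
          finrank W.K (W.H X) ^ (n + 1)) * (n + 2) ^ (finrank W.K (W.H X) ^ 2) := by
        calc finrank W.K (W.H X) ^ (2 * (n + 1)) = finrank W.K (W.H X) ^ ((n + 1) * 2) := by
              rw [mul_comm]
          _ ≤ _ := h2
          _ ≤ _ := Nat.mul_le_mul_right _ hcon
      have h7 : (finrank W.K (LinearMap.range (par (W.isInternal (pw X n)) - u)) *
          finrank W.K (W.H X) ^ (n + 1)) *
          (n + 2) ^ (finrank W.K (W.H X) ^ 2) = (n + 2) ^ (finrank W.K (W.H X) ^ 2) *
            (finrank W.K (W.H X) ^ (n + 1) *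
              finrank W.K (LinearMap.range (par (W.isInternal (pw X n)) - u))) := by ring
      rw [h7] at h6
      exact absurd h (not_lt.2 h6))
  have hop : e ∈ S.Op (pw X n) (pw X n) :=
    S.span_rho_le X n (Pool.Agent.Y133.Half.repAlg_le (rho W X n) he)
  refine par_of_idem he hee he0 ?_
  have h8 : par (W.isInternal (pw X n)) * e = e * par (W.isInternal (pw X n)) :=
    (Sys.Op.ev hop).par_comm
  rw [mul_sub, sub_eq_zero] at heT
  rw [h8, heT]
  exact Sys.Op.comp hop hu

lemma par_eq_evenProj : par (W.isInternal X) = (2 : W.K) • evenProj (W.isInternal X) - 1 := by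
  rw [Pool.Agent.H578R3.Sgn.par_eq, two_smul]
  abel

lemma signStd_iff : SignStd W X ↔ evenProj (W.isInternal X) ∈ (algSys W).Op X X := by
  constructor
  · rintro ⟨z, hz, h⟩
    rw [isEvenProj_iff] at h
    rw [← h]
    exact Sys.Op.corr (Submodule.subset_span (Set.mem_iUnion.2 ⟨_, _, hz, rfl⟩))
  · intro h
    have h0 : Pool.Agent.Q55.Gb.DegOp W X 0 (evenProj (W.isInternal X)) := by
      refine ⟨h, ?_⟩
      rw [Nat.cast_zero, mul_zero, neg_zero]
      exact isHom_scal (W.isInternal X) _
    obtain ⟨z, hz, hzf⟩ := Pool.Agent.Q55.Gb.exists_of_degOp (c := X.dim) (by omega) h0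
    apply Pool.Agent.TH133.PW.signStd_of_span
    refine ⟨W.corr z, ?_, by rw [hzf]; exact isEvenProj_iff.2 rfl⟩
    clear hzf
    rw [spanCycles] at hz
    induction hz using Submodule.span_induction with
    | mem x hx =>
      obtain ⟨p, hp, c, hc, rfl⟩ := hx
      obtain rfl : p = X.dim := by exact_mod_cast hp
      exact Submodule.subset_span ⟨c, hc, rfl⟩
    | zero => rw [corr_zero]; exact Submodule.zero_mem _
    | add a b _ _ ha hb => rw [corr_add]; exact Submodule.add_mem _ (ha) (hb)
    | smul r a _ ha => rw [corr_smul]; exact Submodule.smul_mem _ _ ha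

lemma signStd_iff' : SignStd W X ↔ par (W.isInternal X) ∈ (algSys W).Op X X := by
  rw [signStd_iff, par_eq_evenProj]
  have hone : (1 : Module.End W.K (W.H X)) ∈ (algSys W).Op X X := Sys.Op.id
  constructor
  · intro h
    exact Submodule.sub_mem _ (Submodule.smul_mem _ _ h) hone
  · intro h
    have h1 := Submodule.smul_mem _ (2 : W.K)⁻¹ (Submodule.add_mem _ h hone)
    rwa [sub_add_cancel, smul_smul, inv_mul_cancel₀ two_ne_zero, one_smul] at h1

lemma edist_le {u : Module.End W.K (W.H X)} (hu : u ∈ (algSys W).Op X X) :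
    evenDist W X ≤ finrank W.K (LinearMap.range (evenProj (W.isInternal X) - u)) :=
  Nat.sInf_le ⟨_, u, isEvenProj_iff.2 rfl, mem_isAlgOp.2 hu, rfl⟩

lemma edist_spec : ∃ u ∈ (algSys W).Op X X,
    finrank W.K (LinearMap.range (evenProj (W.isInternal X) - u)) = evenDist W X := by
  have h1 : evenDist W X ∈ {r | ∃ f u, IsEvenProj (W.gr X) f ∧ IsAlgOp W X u ∧
      Module.finrank W.K (LinearMap.range (f - u)) = r} :=
    Nat.sInf_mem ⟨_, _, 0, isEvenProj_iff.2 rfl, mem_isAlgOp.2 (Submodule.zero_mem _), rfl⟩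
  obtain ⟨f', u, hf', hu, h⟩ := h1
  rw [isEvenProj_iff] at hf'
  subst hf'
  exact ⟨u, mem_isAlgOp.1 hu, h⟩

lemma edist_eq_zero : evenDist W X = 0 ↔ SignStd W X := by
  rw [signStd_iff]
  constructor
  · intro h
    obtain ⟨u, hu, h1⟩ := edist_spec (W := W) (X := X)
    rw [h] at h1
    have h2 : evenProj (W.isInternal X) - u = 0 := by
      rw [Submodule.finrank_eq_zero] at h1
      exact LinearMap.range_eq_bot.1 h1
    rw [sub_eq_zero] at h2
    exact h2 ▸ hu
  · intro h
    have h1 := edist_le h
    rw [sub_self, LinearMap.range_zero, finrank_bot] at h1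
    omega

lemma edist_le_betti : evenDist W X ≤ totalBetti W X :=
  (edist_le (Submodule.zero_mem _)).trans (Submodule.finrank_le _)

/-- Operators close to the sign operator. -/
lemma exists_close_par : ∃ u ∈ (algSys W).Op X X,
    finrank W.K (LinearMap.range (par (W.isInternal X) - u)) ≤ evenDist W X := by
  obtain ⟨u, hu, h⟩ := edist_spec (W := W) (X := X)
  have hone : (1 : Module.End W.K (W.H X)) ∈ (algSys W).Op X X := Sys.Op.id
  refine ⟨(2 : W.K) • u - 1, Submodule.sub_mem _ (Submodule.smul_mem _ _ hu) hone, ?_⟩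
  rw [← h]
  have h1 : par (W.isInternal X) - ((2 : W.K) • u - 1) =
      (2 : W.K) • (evenProj (W.isInternal X) - u) := by
    rw [par_eq_evenProj, smul_sub]; abel
  rw [h1]
  apply Submodule.finrank_mono
  rintro _ ⟨x, rfl⟩
  exact ⟨(2 : W.K) • x, by rw [map_smul]; rfl⟩

/-- **The law for the even projector.** -/
theorem edist_law (h : ¬ SignStd W X) (n : ℕ) :
    totalBetti W X ^ (n + 1) ≤ (n + 2) ^ (totalBetti W X ^ 2) * evenDist W (pw X n) := by
  obtain ⟨u, hu, h1⟩ := exists_close_par (W := W) (X := pw X n)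
  by_contra hlt
  push Not at hlt
  apply h
  rw [signStd_iff']
  apply par_of_close hu
  change (n + 2) ^ (totalBetti W X ^ 2) * (totalBetti W X ^ (n + 1) * _) <
    totalBetti W X ^ (2 * (n + 1))
  have hb : 0 < totalBetti W X ^ (n + 1) := lt_of_le_of_lt (Nat.zero_le _) hlt
  calc (n + 2) ^ (totalBetti W X ^ 2) * (totalBetti W X ^ (n + 1) *
        finrank W.K (LinearMap.range (par (W.isInternal (pw X n)) - u)))
      ≤ (n + 2) ^ (totalBetti W X ^ 2) * (totalBetti W X ^ (n + 1) * evenDist W (pw X n)) :=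
        Nat.mul_le_mul_left _ (Nat.mul_le_mul_left _ h1)
    _ = totalBetti W X ^ (n + 1) *
        ((n + 2) ^ (totalBetti W X ^ 2) * evenDist W (pw X n)) := by ring
    _ < totalBetti W X ^ (n + 1) * totalBetti W X ^ (n + 1) := Nat.mul_lt_mul_of_pos_left hlt hb
    _ = _ := by rw [← pow_add, ← two_mul]

end Pool.Agent.Q55.Lr
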