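import Pool.Agent.Q55.Lr.Sgn

/-!
# The laws for the even projector and for the Kunneth components
-/

open CategoryTheory AlgebraicGeometry Filter Topology

set_option linter.unusedSectionVars false

universe u v

namespace Pool.Agent.Q55.Lr

open Module
open Pool.Agent.H914 Pool.Agent.H914.VarClass Pool.Agent.H914.VarClass.Obj
  Pool.Agent.H914.WeilCohomology Pool.Agent.Y133.Half Pool.Agent.H447 Pool.Agent.Q55.Rate

variable {k : Type u} [Field k] {𝒱 : VarClass k} {ops : CycleOps 𝒱}
  {W : WeilCohomology.{u, v} ops} {X Y : 𝒱.Obj} {S : Sys W}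

lemma par_xp_even {w : W.H Y} (hw : w ∈ PH W Y 0) (x : W.H X) :
    par (W.isInternal (X.prod Y)) (xp W x w) = xp W (par (W.isInternal X) x) w := by
  rw [Pool.Agent.Q55.Hs.par_prod', extOp_xp, PH.par hw, pow_zero, one_smul]

/-- The distance of the even projector on products. -/
theorem edist_left (h : ¬ SignStd W X) (Y : 𝒱.Obj) :
    cycRank ops Y ≤ totalBetti W X * evenDist W (X.prod Y) := by
  obtain ⟨u, hu, h1⟩ := exists_close_par (W := W) (X := X.prod Y)
  by_contra hlt
  push Not at hlt
  apply h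
  rw [signStd_iff']
  rw [← numDim_eq_cycRank W] at hlt
  refine slice_gen (S := algSys W) (le_refl ((algSys W).C Y)) (le_refl ((algSys W).C Y))
    (fun w hw x => par_xp_even ((algSys W).even hw) x) hu ((algSys W).F Y 1) (fun w v => rfl) ?_
  exact lt_of_le_of_lt (Nat.mul_le_mul_left _ h1) hlt

lemma signStd_pw (h : SignStd W X) (n : ℕ) : SignStd W (pw X n) := by
  rw [signStd_iff'] at h ⊢
  exact Pool.Agent.Q55.Hs.par_pw (algSys W) h n

lemma nontrivial_of_sign (h : ¬ SignStd W X) : Nontrivial (W.H X) := by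
  by_contra hn
  rw [not_nontrivial_iff_subsingleton] at hn
  apply h
  rw [← edist_eq_zero]
  have h1 := edist_le_betti (W := W) (X := X)
  rw [totalBetti, finrank_zero_of_subsingleton] at h1
  omega

lemma two_mul_pow (n N : ℕ) : (n + 2) ^ N ≤ 2 ^ N * (n + 1) ^ N := by
  rw [← Nat.mul_pow]
  exact Nat.pow_le_pow_left (by omega) _

/-- The rate for the even projector. -/
theorem edist_rate (h : ¬ SignStd W X) :
    Tendsto (fun m : ℕ => (evenDist W (pw X m) : ℝ) ^ ((1 : ℝ) / (m + 1))) atTop
      (𝓝 (totalBetti W X)) := by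
  have hnt := nontrivial_of_sign h
  have hb : 1 ≤ totalBetti W X := Module.finrank_pos
  refine tendsto_root (b := totalBetti W X) (C := 2 ^ (totalBetti W X ^ 2))
    (N := totalBetti W X ^ 2) hb (fun m => ?_) (fun m => ?_)
  · rw [← betti_pw]
    exact edist_le_betti
  · calc totalBetti W X ^ m ≤ totalBetti W X ^ (m + 1) := Nat.pow_le_pow_right hb (by omega)
      _ ≤ (m + 2) ^ (totalBetti W X ^ 2) * evenDist W (pw X m) := edist_law h m
      _ ≤ _ := Nat.mul_le_mul_right _ (two_mul_pow _ _)

lemma signAlgebraic_iff : SignAlgebraic W X ↔ SignStd W X := by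
  constructor
  · intro h
    rw [signStd_iff']
    exact par_eq h
  · intro h
    rw [signStd_iff'] at h
    obtain ⟨c, hc, hc'⟩ := Sys.mem_Op.1 h
    refine ⟨c, by rw [algSet_span]; exact hc, ?_⟩
    intro i x hx
    rw [hc', par, scal_apply _ _ hx]

/-- A combination of Kunneth projectors: the even projector. -/
lemma evenProj_eq_sum : evenProj (W.isInternal X) =
    ∑ i ∈ (Finset.range (2 * X.dim + 1)).filter Even, proj (W.isInternal X) i := by
  apply gr_ext (W.isInternal X)
  intro i x hx
  rw [evenProj, scal_apply _ _ hx, LinearMap.sum_apply]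
  by_cases hi : 2 * X.dim < i
  · have h2 := hx
    rw [W.gr_eq_bot X i hi, Submodule.mem_bot] at h2
    rw [h2]
    simp
  by_cases he : Even i
  · rw [if_pos he, one_smul, Finset.sum_eq_single i]
    · rw [proj_same _ hx]
    · intro j _ hj
      rw [proj_ne _ hx (Ne.symm hj)]
    · intro h
      exact absurd (Finset.mem_filter.2 ⟨Finset.mem_range.2 (by omega), he⟩) h
  · rw [if_neg he, zero_smul]
    symm
    apply Finset.sum_eq_zero
    intro j hj
    rw [proj_ne _ hx]
    rintro rfl
    exact he (Finset.mem_filter.1 hj).2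

lemma finrank_range_sum_le {K V : Type*} [Field K] [AddCommGroup V] [Module K V]
    [FiniteDimensional K V] {ι : Type*} (s : Finset ι) (T : ι → Module.End K V) :
    finrank K (LinearMap.range (∑ i ∈ s, T i)) ≤ ∑ i ∈ s, finrank K (LinearMap.range (T i)) := by
  classical
  induction s using Finset.induction_on with
  | empty => rw [Finset.sum_empty, Finset.sum_empty, LinearMap.range_zero, finrank_bot]
  | insert a s ha ih =>
    rw [Finset.sum_insert ha, Finset.sum_insert ha]
    have h1 : LinearMap.range (T a + ∑ i ∈ s, T i) ≤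
        LinearMap.range (T a) ⊔ LinearMap.range (∑ i ∈ s, T i) := by
      rintro _ ⟨x, rfl⟩
      exact Submodule.add_mem_sup ⟨x, rfl⟩ ⟨x, rfl⟩
    exact (Submodule.finrank_mono h1).trans ((Submodule.finrank_add_le_finrank_add_finrank _ _).trans
      (Nat.add_le_add_left ih _))

lemma card_even_range (d : ℕ) : ((Finset.range (2 * d + 1)).filter Even).card ≤ d + 1 := by
  have h1 : (Finset.range (2 * d + 1)).filter Even ⊆ (Finset.range (d + 1)).image fun j => 2 * j := by
    intro i hi
    rw [Finset.mem_filter, Finset.mem_range] at hi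
    obtain ⟨j, hj⟩ := hi.2
    exact Finset.mem_image.2 ⟨j, Finset.mem_range.2 (by omega), by omega⟩
  exact (Finset.card_le_card h1).trans (Finset.card_image_le.trans (Finset.card_range _).le)

/-- The distance of the even projector is bounded by the distances of the Kunneth projectors. -/
lemma edist_le_kdist : evenDist W X ≤ (X.dim + 1) * kunnethDist W X := by
  choose u hu h1 using fun i => pdist_spec (W := W) (X := X) i
  have h2 := edist_le (W := W) (X := X) (u := ∑ i ∈ (Finset.range (2 * X.dim + 1)).filter Even, u i)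
    (Submodule.sum_mem _ fun i _ => hu i)
  rw [evenProj_eq_sum, ← Finset.sum_sub_distrib] at h2
  refine h2.trans ((finrank_range_sum_le _ _).trans ?_)
  calc ∑ i ∈ (Finset.range (2 * X.dim + 1)).filter Even,
        finrank W.K (LinearMap.range (proj (W.isInternal X) i - u i))
      ≤ ∑ i ∈ (Finset.range (2 * X.dim + 1)).filter Even, kunnethDist W X :=
        Finset.sum_le_sum fun i _ => by rw [h1]; exact pdist_le_kdist i
    _ = ((Finset.range (2 * X.dim + 1)).filter Even).card * kunnethDist W X := by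
        rw [Finset.sum_const, smul_eq_mul]
    _ ≤ _ := Nat.mul_le_mul_right _ (card_even_range _)

/-- **The law for the Kunneth components.** -/
theorem kdist_law (hC : ¬ ∀ i, ComponentAlgebraic W X i) (n : ℕ) :
    totalBetti W X ^ (n + 1) ≤ totalBetti W X ^ 3 * (X.dim + 1) *
      (n + 2) ^ (totalBetti W X ^ 2 + 1) * kunnethDist W (pw X n) := by
  have hnt := nontrivial_of_kun hC
  have hb : 1 ≤ totalBetti W X := Module.finrank_pos
  set b := totalBetti W X with hbdef
  by_cases hs : SignStd W X
  · have h1 := kdist_poly (ops := ops) hC (signAlgebraic_iff.2 hs) n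
    calc b ^ (n + 1) = b * b ^ n := by ring
      _ ≤ b * (b ^ 2 * (X.dim + 1) * (n + 1) ^ (b ^ 2 + 1) * kunnethDist W (pw X n)) :=
          Nat.mul_le_mul_left _ h1
      _ = b ^ 3 * (X.dim + 1) * (n + 1) ^ (b ^ 2 + 1) * kunnethDist W (pw X n) := by ring
      _ ≤ _ := Nat.mul_le_mul_right _ (Nat.mul_le_mul_left _
          (Nat.pow_le_pow_left (by omega) _))
  · have h1 := edist_law (W := W) hs n
    have h2 := edist_le_kdist (W := W) (X := pw X n)
    rw [Pool.Agent.Q55.Hs.dim_pw] at h2
    have h3 : (n + 1) * X.dim + 1 ≤ (X.dim + 1) * (n + 2) := by nlinarith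
    have h4 : 1 ≤ b ^ 3 := Nat.one_le_pow _ _ hb
    calc b ^ (n + 1) ≤ (n + 2) ^ (b ^ 2) * evenDist W (pw X n) := h1
      _ ≤ (n + 2) ^ (b ^ 2) * (((X.dim + 1) * (n + 2)) * kunnethDist W (pw X n)) :=
          Nat.mul_le_mul_left _ (h2.trans (Nat.mul_le_mul_right _ h3))
      _ = 1 * (X.dim + 1) * (n + 2) ^ (b ^ 2 + 1) * kunnethDist W (pw X n) := by ring
      _ ≤ _ := Nat.mul_le_mul_right _ (Nat.mul_le_mul_right _ (Nat.mul_le_mul_right _ h4))

/-- The rate for the Kunneth components. -/
theorem kdist_rate' (hC : ¬ ∀ i, ComponentAlgebraic W X i) :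
    Tendsto (fun m : ℕ => (kunnethDist W (pw X m) : ℝ) ^ ((1 : ℝ) / (m + 1))) atTop
      (𝓝 (totalBetti W X)) := by
  have hnt := nontrivial_of_kun hC
  have hb : 1 ≤ totalBetti W X := Module.finrank_pos
  refine tendsto_root (b := totalBetti W X)
    (C := totalBetti W X ^ 3 * (X.dim + 1) * 2 ^ (totalBetti W X ^ 2 + 1))
    (N := totalBetti W X ^ 2 + 1) hb (fun m => ?_) (fun m => ?_)
  · rw [← betti_pw]
    exact kdist_le_betti
  · calc totalBetti W X ^ m ≤ totalBetti W X ^ (m + 1) := Nat.pow_le_pow_right hb (by omega)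
      _ ≤ totalBetti W X ^ 3 * (X.dim + 1) *
      (m + 2) ^ (totalBetti W X ^ 2 + 1) * kunnethDist W (pw X m) := kdist_law hC m
      _ ≤ totalBetti W X ^ 3 * (X.dim + 1) * (2 ^ (totalBetti W X ^ 2 + 1) *
          (m + 1) ^ (totalBetti W X ^ 2 + 1)) * kunnethDist W (pw X m) :=
          Nat.mul_le_mul_right _ (Nat.mul_le_mul_left _ (two_mul_pow _ _))
      _ = _ := by ring

end Pool.Agent.Q55.Lr
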