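import Pool.Agent.Q55.Lr.Oth

/-!
# Sums of the actions of an operator on the factors of a power
-/

open CategoryTheory AlgebraicGeometry

set_option linter.unusedSectionVars false

universe u v

namespace Pool.Agent.Q55.Lr

open Module
open Pool.Agent.H914 Pool.Agent.H914.VarClass Pool.Agent.H914.VarClass.Obj
  Pool.Agent.H914.WeilCohomology Pool.Agent.Y133.Half

variable {k : Type u} [Field k] {𝒱 : VarClass k} {ops : CycleOps 𝒱}
  {W : WeilCohomology.{u, v} ops} {X Y Z P Q : 𝒱.Obj}

/-- External products of classes on the factors of a power. -/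
noncomputable def ten (W : WeilCohomology.{u, v} ops) (X : 𝒱.Obj) :
    ∀ n, (Fin (n + 1) → W.H X) → W.H (pw X n)
  | 0, x => x 0
  | n + 1, x => xp W (ten W X n fun i => x i.castSucc) (x (Fin.last _))

/-- The action of an operator on one factor. -/
noncomputable def atk (c : Module.End W.K (W.H X)) :
    ∀ n, Fin (n + 1) → Module.End W.K (W.H (pw X n))
  | 0, _ => c
  | n + 1, i => Fin.lastCases (motive := fun _ => Module.End W.K (W.H ((pw X n).prod X)))
      (extOp W (1 : Module.End W.K (W.H (pw X n))) c)
      (fun j => extOp W (atk c n j) (1 : Module.End W.K (W.H X))) i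

lemma atk_last (c : Module.End W.K (W.H X)) (n : ℕ) :
    atk c (n + 1) (Fin.last _) = extOp W (1 : Module.End W.K (W.H (pw X n))) c :=
  Fin.lastCases_last (motive := fun _ => Module.End W.K (W.H ((pw X n).prod X)))

lemma atk_castSucc (c : Module.End W.K (W.H X)) (n : ℕ) (j : Fin (n + 1)) :
    atk c (n + 1) j.castSucc = extOp W (atk c n j) (1 : Module.End W.K (W.H X)) :=
  Fin.lastCases_castSucc (motive := fun _ => Module.End W.K (W.H ((pw X n).prod X))) j

lemma ten_eq (n : ℕ) (x : Fin (n + 1) → W.H X) :
    ten W X n x = (List.ofFn fun i => W.map (prj X n i) (x i)).prod := by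
  induction n with
  | zero =>
    rw [ten, List.ofFn_succ, List.ofFn_zero, List.prod_singleton]
    exact (W.map_id _ _).symm
  | succ n ih =>
    conv_rhs => rw [List.ofFn_succ', List.prod_concat, prj_last]
    rw [ten, ih, xp, map_list_prod, List.map_ofFn]
    have h1 : ((W.map (fst (pw X n) X)) ∘ fun i => W.map (prj X n i) (x i.castSucc)) =
        fun i : Fin (n + 1) => W.map (prj X (n + 1) i.castSucc) (x i.castSucc) := by
      funext i
      rw [Function.comp_apply, prj_castSucc, W.map_comp]
      rfl
    rw [h1]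
    rfl

lemma wb_ten {ι : Type} [Fintype ι] [DecidableEq ι] (e : Basis ι W.K (W.H X)) (n : ℕ)
    (w : Fin (n + 1) → ι) : wb e n w = ten W X n (fun i => e (w i)) := by
  rw [wb_eq, ten_eq]

lemma atk_ten (c : Module.End W.K (W.H X)) (n : ℕ) (j : Fin (n + 1)) (x : Fin (n + 1) → W.H X) :
    atk c n j (ten W X n x) = ten W X n (Function.update x j (c (x j))) := by
  induction n with
  | zero =>
    obtain rfl : j = 0 := by omega
    rw [ten, ten, Function.update_self]
    rfl
  | succ n ih =>
    refine Fin.lastCases ?_ (fun i => ?_) j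
    · rw [atk_last, ten, ten]
      change extOp W 1 c (xp W _ _) = _
      rw [extOp_xp, Function.update_self, Module.End.one_apply]
      congr 2
      funext i
      rw [Function.update_of_ne (Fin.castSucc_lt_last i).ne]
    · rw [atk_castSucc, ten, ten]
      change extOp W (atk c n i) 1 (xp W _ _) = _
      rw [extOp_xp, Function.update_of_ne (Fin.castSucc_lt_last i).ne']
      congr 1
      rw [ih]
      congr 1
      funext l
      by_cases hl : l = i
      · subst hl; rw [Function.update_self, Function.update_self]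
      · rw [Function.update_of_ne hl, Function.update_of_ne fun h => hl (Fin.castSucc_injective _ h)]

/-- Two operators on a power which agree on the external products of homogeneous classes. -/
lemma ten_ext {V : Type*} [AddCommGroup V] [Module W.K V] {n : ℕ} {F G : W.H (pw X n) →ₗ[W.K] V}
    (h : ∀ (x : Fin (n + 1) → W.H X) (a : Fin (n + 1) → ℕ), (∀ i, x i ∈ PH W X (a i)) →
      F (ten W X n x) = G (ten W X n x)) : F = G := by
  obtain ⟨e, he⟩ := exists_hbasis W X
  choose a ha using he
  apply (wb e n).ext
  intro w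
  rw [wb_ten]
  exact h _ (fun i => a (w i)) fun i => ha _

lemma atk_mul (c d : Module.End W.K (W.H X)) (n : ℕ) (j : Fin (n + 1)) :
    atk (c * d) n j = atk c n j * atk d n j := by
  apply ten_ext
  intro x a _
  rw [Module.End.mul_apply, atk_ten, atk_ten, atk_ten, Function.update_idem, Function.update_self]
  rfl

lemma atk_comm (c d : Module.End W.K (W.H X)) (n : ℕ) {i j : Fin (n + 1)} (h : i ≠ j) :
    atk c n i * atk d n j = atk d n j * atk c n i := by
  apply ten_ext
  intro x a _
  rw [Module.End.mul_apply, Module.End.mul_apply, atk_ten, atk_ten, atk_ten, atk_ten,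
    Function.update_of_ne h, Function.update_of_ne h.symm, Function.update_comm h]

lemma atk_add (c d : Module.End W.K (W.H X)) (n : ℕ) (j : Fin (n + 1)) :
    atk (c + d) n j = atk c n j + atk d n j := by
  induction n with
  | zero => rfl
  | succ n ih =>
    refine Fin.lastCases ?_ (fun i => ?_) j
    · rw [atk_last, atk_last, atk_last, extOp_add_right]; rfl
    · rw [atk_castSucc, atk_castSucc, atk_castSucc, ih, extOp_add_left]; rfl

lemma atk_smul (r : W.K) (c : Module.End W.K (W.H X)) (n : ℕ) (j : Fin (n + 1)) :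
    atk (r • c) n j = r • atk c n j := by
  induction n with
  | zero => rfl
  | succ n ih =>
    refine Fin.lastCases ?_ (fun i => ?_) j
    · rw [atk_last, atk_last, extOp_smul_right]; rfl
    · rw [atk_castSucc, atk_castSucc, ih, extOp_smul_left]; rfl

lemma atk_one (n : ℕ) (j : Fin (n + 1)) : atk (1 : Module.End W.K (W.H X)) n j = 1 := by
  induction n with
  | zero => rfl
  | succ n ih =>
    refine Fin.lastCases ?_ (fun i => ?_) j
    · rw [atk_last]; exact extOp_one
    · rw [atk_castSucc, ih]; exact extOp_one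

lemma atk_oop {S : Sys W} {c : Module.End W.K (W.H X)} (hc : c ∈ OOp S X X) (n : ℕ)
    (j : Fin (n + 1)) : atk c n j ∈ OOp S (pw X n) (pw X n) := by
  induction n with
  | zero => exact hc
  | succ n ih =>
    refine Fin.lastCases ?_ (fun i => ?_) j
    · rw [atk_last]; exact OOp.ext_right hc
    · rw [atk_castSucc]; exact OOp.ext_left (ih i)

/-- The sum of the actions of an operator on the factors. -/
noncomputable def tot (c : Module.End W.K (W.H X)) (n : ℕ) : Module.End W.K (W.H (pw X n)) :=
  ∑ j, atk c n j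

lemma tot_add (c d : Module.End W.K (W.H X)) (n : ℕ) : tot (c + d) n = tot c n + tot d n := by
  rw [tot, tot, tot, ← Finset.sum_add_distrib]
  exact Finset.sum_congr rfl fun j _ => atk_add c d n j

lemma tot_smul (r : W.K) (c : Module.End W.K (W.H X)) (n : ℕ) : tot (r • c) n = r • tot c n := by
  rw [tot, tot, Finset.smul_sum]
  exact Finset.sum_congr rfl fun j _ => atk_smul r c n j

lemma tot_one (n : ℕ) : tot (1 : Module.End W.K (W.H X)) n = ((n + 1 : ℕ) : W.K) • 1 := by
  rw [tot, Finset.sum_congr rfl fun j _ => atk_one n j, Finset.sum_const, Finset.card_univ,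
    Fintype.card_fin, ← Nat.cast_smul_eq_nsmul W.K]

lemma tot_oop {S : Sys W} {c : Module.End W.K (W.H X)} (hc : c ∈ OOp S X X) (n : ℕ) :
    tot c n ∈ OOp S (pw X n) (pw X n) :=
  Submodule.sum_mem _ fun j _ => atk_oop hc n j

/-- The commutator of two sums. -/
lemma tot_comm (c d : Module.End W.K (W.H X)) (n : ℕ) :
    tot c n * tot d n - tot d n * tot c n = tot (c * d - d * c) n := by
  have h1 : ∀ c d : Module.End W.K (W.H X), tot c n * tot d n =
      tot (c * d) n + ∑ p ∈ Finset.univ.filter fun p : Fin (n + 1) × Fin (n + 1) => p.1 ≠ p.2,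
        atk c n p.1 * atk d n p.2 := by
    intro c d
    rw [tot, tot, Finset.sum_mul_sum, ← Finset.sum_product', Finset.univ_product_univ,
      ← Finset.sum_filter_add_sum_filter_not _ (fun p : Fin (n + 1) × Fin (n + 1) => p.1 = p.2)]
    congr 1
    rw [tot]
    refine (Finset.sum_nbij' (fun j => (j, j)) (fun p => p.1) ?_ ?_ ?_ ?_ ?_).symm
    · intro j _; exact Finset.mem_filter.2 ⟨Finset.mem_univ _, rfl⟩
    · intro p _; exact Finset.mem_univ _
    · intro j _; rfl
    · intro p hp; exact Prod.ext rfl (Finset.mem_filter.1 hp).2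
    · intro j _; exact atk_mul c d n j
  rw [h1 c d, h1 d c]
  have h2 : ∑ p ∈ Finset.univ.filter fun p : Fin (n + 1) × Fin (n + 1) => p.1 ≠ p.2,
      atk c n p.1 * atk d n p.2 =
      ∑ p ∈ Finset.univ.filter fun p : Fin (n + 1) × Fin (n + 1) => p.1 ≠ p.2,
        atk d n p.1 * atk c n p.2 := by
    refine Finset.sum_nbij' Prod.swap Prod.swap ?_ ?_ ?_ ?_ ?_
    · intro p hp; exact Finset.mem_filter.2 ⟨Finset.mem_univ _, (Finset.mem_filter.1 hp).2.symm⟩
    · intro p hp; exact Finset.mem_filter.2 ⟨Finset.mem_univ _, (Finset.mem_filter.1 hp).2.symm⟩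
    · intro p _; exact Prod.swap_swap p
    · intro p _; exact Prod.swap_swap p
    · intro p hp; exact atk_comm c d n (Finset.mem_filter.1 hp).2
  have h3 : tot (c * d) n = tot (c * d - d * c) n + tot (d * c) n := by
    rw [← tot_add, sub_add_cancel]
  rw [h2, h3]
  abel

/-- A product of homogeneous classes in another order. -/
lemma prod_perm_unif {ι : Type} {l l' : List ι} (h : l.Perm l') (a : ι → ℕ) :
    ∃ s : W.K, s ≠ 0 ∧ ∀ F : ι → W.H Z, (∀ i, F i ∈ PH W Z (a i)) →
      (l.map F).prod = s • (l'.map F).prod := by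
  induction h with
  | nil => exact ⟨1, one_ne_zero, fun F _ => (one_smul _ _).symm⟩
  | cons x _ ih =>
    obtain ⟨s, hs, e⟩ := ih
    exact ⟨s, hs, fun F hF => by
      rw [List.map_cons, List.map_cons, List.prod_cons, List.prod_cons, e F hF, mul_smul_comm]⟩
  | swap x y l =>
    refine ⟨(-1) ^ (a y * a x), pow_ne_zero _ (neg_ne_zero.2 one_ne_zero), fun F hF => ?_⟩
    simp only [List.map_cons]
    rw [List.prod_cons, List.prod_cons, List.prod_cons, List.prod_cons, ← mul_assoc,
      PH.comm (hF y) (hF x), smul_mul_assoc, mul_assoc]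
  | trans h1 _ ih1 ih2 =>
    obtain ⟨s, hs, e⟩ := ih1
    obtain ⟨s', hs', e'⟩ := ih2
    exact ⟨s * s', mul_ne_zero hs hs', fun F hF => by rw [e F hF, e' F hF, smul_smul]⟩

/-- The action of a permutation on external products. -/
lemma rho_ten (n : ℕ) (σ : Equiv.Perm (Fin (n + 1))) (a : Fin (n + 1) → ℕ) :
    ∃ s : W.K, s ≠ 0 ∧ ∀ x : Fin (n + 1) → W.H X, (∀ i, x i ∈ PH W X (a i)) →
      rho W X n σ (ten W X n (x ∘ σ)) = s • ten W X n x := by
  have hp : (List.ofFn σ).Perm (List.ofFn (id : Fin (n + 1) → Fin (n + 1))) := by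
    have := σ.ofFn_comp_perm (id : Fin (n + 1) → Fin (n + 1))
    exact this
  obtain ⟨s, hs, h⟩ := prod_perm_unif (W := W) (Z := pw X n) hp a
  refine ⟨s, hs, fun x hx => ?_⟩
  have h1 := h (fun i => W.map (prj X n i) (x i)) fun i => PH.map _ (hx i)
  rw [List.map_ofFn, List.map_ofFn] at h1
  rw [ten_eq, ten_eq]
  change W.map (tau X n σ) _ = _
  rw [map_list_prod, List.map_ofFn]
  have h2 : ((W.map (tau X n σ)) ∘ fun i => W.map (prj X n i) ((x ∘ σ) i)) =
      (fun i => W.map (prj X n i) (x i)) ∘ σ := by
    funext i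
    rw [Function.comp_apply, Function.comp_apply, ← W.map_comp, tau_prj]
    rfl
  rw [h2, h1]
  rfl

lemma update_comp_perm {ι V : Type*} [DecidableEq ι] (x : ι → V) (σ : Equiv.Perm ι) (j : ι) (v : V) :
    Function.update (x ∘ σ) j v = (Function.update x (σ j) v) ∘ σ := by
  funext i
  by_cases h : i = j
  · subst h; rw [Function.update_self, Function.comp_apply, Function.update_self]
  · rw [Function.update_of_ne h, Function.comp_apply, Function.comp_apply,
      Function.update_of_ne fun h' => h (σ.injective h')]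

/-- The sums of the actions of an even operator commute with the permutations. -/
lemma rho_tot {c : Module.End W.K (W.H X)} (hc : Ev W c) (n : ℕ) (σ : Equiv.Perm (Fin (n + 1))) :
    rho W X n σ * tot c n = tot c n * rho W X n σ := by
  apply ten_ext
  intro y b hy
  -- `y = x ∘ σ`
  set x : Fin (n + 1) → W.H X := y ∘ σ.symm with hx
  set a : Fin (n + 1) → ℕ := b ∘ σ.symm with ha
  have hyx : y = x ∘ σ := by
    funext i
    rw [hx, Function.comp_apply, Function.comp_apply, Equiv.symm_apply_apply]
  have hxa : ∀ i, x i ∈ PH W X (a i) := fun i => hy _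
  obtain ⟨s, hs, h⟩ := rho_ten (W := W) (X := X) n σ a
  rw [Module.End.mul_apply, Module.End.mul_apply, hyx, h x hxa, tot, LinearMap.sum_apply, map_sum,
    map_smul, LinearMap.sum_apply, Finset.smul_sum]
  refine Fintype.sum_equiv σ _ _ fun j => ?_
  rw [atk_ten, update_comp_perm, h, atk_ten]
  · rfl
  · intro i
    by_cases hi : i = σ j
    · subst hi; rw [Function.update_self]; exact hc _ _ (hxa _)
    · rw [Function.update_of_ne hi]; exact hxa i

end Pool.Agent.Q55.Lr
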